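import Mathlib

set_option autoImplicit false

namespace Pool.Agent.Lib.MP_7b644b_an

open Finset

theorem eq_of_scale {A B : ℝ} (hA : 0 ≤ A) (hB : 0 ≤ B)
    (h : ∀ s : ℝ, 0 < s → A + B ≤ A / s + B * s) : A = B := by
  have key : ∀ s : ℝ, 0 < s → 0 ≤ (1 - s) * (A - B * s) := fun s hs => by
    have h1 := mul_le_mul_of_nonneg_right (h s hs) hs.le
    have h2 : (A / s + B * s) * s = A + B * s * s := by field_simp
    rw [h2] at h1
    nlinarith
  rcases lt_trichotomy A B with hlt | heq | hgt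
  · exfalso
    have hB0 : 0 < B := by linarith
    have h1 := key ((A + B) / (2 * B)) (by positivity)
    have h2 : B * ((A + B) / (2 * B)) = (A + B) / 2 := by field_simp
    have h3 : (A + B) / (2 * B) < 1 := by rw [div_lt_one (by positivity)]; linarith
    rw [h2] at h1
    nlinarith
  · exact heq
  · exfalso
    have h1 := key (2 * (A + 1) / (A + B + 2)) (by positivity)
    have h3 : 1 < 2 * (A + 1) / (A + B + 2) := by rw [one_lt_div (by positivity)]; linarith
    have h4 : B * (2 * (A + 1) / (A + B + 2)) < A := by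
      rw [← mul_div_assoc, div_lt_iff₀ (by positivity)]
      nlinarith
    nlinarith

/-- A diagonal scaling for which every cut is balanced. -/
theorem balance {ι : Type*} [Fintype ι] (N : ι → ι → ℝ) (hN : ∀ i k, 0 ≤ N i k) (i₀ : ι) (R : ℝ)
    (hR : 0 ≤ R)
    (hco : ∀ x : ι → ℝ, ∑ i, ∑ k, N i k * Real.exp (x k - x i) ≤ ∑ i, ∑ k, N i k →
      ∀ i, |x i - x i₀| ≤ R) :
    ∃ d : ι → ℝ, (∀ i, 0 < d i) ∧ ∀ (p : ι → Prop) [DecidablePred p],
      ∑ i, ∑ k, (if p i ∧ ¬ p k then N i k * d k / d i else 0) =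
        ∑ i, ∑ k, (if ¬ p i ∧ p k then N i k * d k / d i else 0) := by
  set f : (ι → ℝ) → ℝ := fun x => ∑ i, ∑ k, N i k * Real.exp (x k - x i) with hf
  have hfc : Continuous f := by rw [hf]; fun_prop
  obtain ⟨x, -, hx⟩ := (isCompact_closedBall (0 : ι → ℝ) R).exists_isMinOn
    ⟨0, Metric.mem_closedBall_self hR⟩ hfc.continuousOn
  have hmin : ∀ y, f x ≤ f y := by
    intro y
    by_cases h : f y ≤ ∑ i, ∑ k, N i k
    · have h1 : f y = f fun i => y i - y i₀ := by simp [hf]
      rw [h1]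
      refine hx ?_
      rw [mem_closedBall_zero_iff, pi_norm_le_iff_of_nonneg hR]
      exact fun i => hco y h i
    · have h1 : f x ≤ f 0 := hx (Metric.mem_closedBall_self hR)
      have h2 : f 0 = ∑ i, ∑ k, N i k := by simp [hf]
      linarith
  refine ⟨fun i => Real.exp (x i), fun i => Real.exp_pos _, fun p _ => ?_⟩
  have h0 : ∀ i k, 0 ≤ N i k * Real.exp (x k) / Real.exp (x i) := fun i k => by
    have := hN i k
    positivity
  refine eq_of_scale (Finset.sum_nonneg fun i _ => Finset.sum_nonneg fun k _ => ?_)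
    (Finset.sum_nonneg fun i _ => Finset.sum_nonneg fun k _ => ?_) fun s hs => ?_
  · split_ifs
    · exact h0 i k
    · exact le_rfl
  · split_ifs
    · exact h0 i k
    · exact le_rfl
  · have h1 := hmin fun i => x i + if p i then Real.log s else 0
    have h2 : (f fun i => x i + if p i then Real.log s else 0) - f x =
        ((∑ i, ∑ k, if p i ∧ ¬ p k then N i k * Real.exp (x k) / Real.exp (x i) else 0) / s +
          (∑ i, ∑ k, if ¬ p i ∧ p k then N i k * Real.exp (x k) / Real.exp (x i) else 0) * s) -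
        ((∑ i, ∑ k, if p i ∧ ¬ p k then N i k * Real.exp (x k) / Real.exp (x i) else 0) +
          (∑ i, ∑ k, if ¬ p i ∧ p k then N i k * Real.exp (x k) / Real.exp (x i) else 0)) := by
      simp only [hf, Finset.sum_div, Finset.sum_mul, ← Finset.sum_add_distrib,
        ← Finset.sum_sub_distrib]
      refine Finset.sum_congr rfl fun i _ => Finset.sum_congr rfl fun k _ => ?_
      have h3 := Real.exp_pos (x i)
      by_cases hi : p i <;> by_cases hk : p k <;>
        simp only [hi, hk, if_true, if_false, not_true, not_false_iff, and_true, and_false,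
          Real.exp_sub, Real.exp_add, Real.exp_log hs, add_zero] <;>
        field_simp <;> ring
    linarith

theorem sum_half_Ico (a b : ℕ) : ∑ i ∈ Ico a b, (1 / 2 : ℝ) ^ (i - a) ≤ 2 := by
  rw [Finset.sum_Ico_eq_sum_range]
  simp only [Nat.add_sub_cancel_left]
  exact (sum_le_hasSum _ (fun _ _ => by positivity) hasSum_geometric_two)

theorem sum_half_rev (a k : ℕ) : ∑ j ∈ Ico a (k + 1), (1 / 2 : ℝ) ^ (k - j) ≤ 2 := by
  refine le_trans (Finset.sum_le_sum_of_subset_of_nonneg (t := range (k + 1))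
    (fun j hj => by simp at hj ⊢; omega) fun _ _ _ => by positivity) ?_
  have := Finset.sum_range_reflect (fun j => (1 / 2 : ℝ) ^ j) (k + 1)
  simp only [Nat.add_sub_cancel] at this
  rw [this]
  exact (sum_le_hasSum _ (fun _ _ => by positivity) hasSum_geometric_two)

/-- In a balanced Hessenberg matrix with geometrically bounded feedback all cut flows are bounded. -/
theorem flow_bound (n : ℕ) (w : ℕ → ℕ → ℝ) (d : ℕ → ℝ) (hd : ∀ i, 0 < d i)
    (hw0 : ∀ i j, 0 ≤ w i j) (hw : ∀ i j, j ≤ i → i < n → w i j * 128 ^ j ≤ 34 * 128 ^ i)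
    (hcut : ∀ k, k + 1 < n →
      d (k + 1) / d k = ∑ i ∈ Ico (k + 1) n, ∑ j ∈ range (k + 1), w i j * d j / d i)
    (k : ℕ) (hk : k + 1 < n) : d (k + 1) / d k ≤ 648 := by
  have hg : ∀ i j, 0 ≤ w i j * d j / d i := fun i j => by
    have := hw0 i j
    have := hd i
    have := hd j
    positivity
  obtain ⟨a, ha1, ha2, ha3⟩ : ∃ a, a ≤ k + 1 ∧ (∀ m, a ≤ m → m ≤ k → 256 ≤ d (m + 1) / d m) ∧
      ∑ i ∈ Ico (k + 1) n, ∑ j ∈ range a, w i j * d j / d i ≤ 256 := by
    by_cases h : ∃ m, m ≤ k ∧ d (m + 1) / d m < 256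
    · classical
      obtain ⟨m₀, hm₀, hm₁⟩ := h
      have h1 := Nat.findGreatest_spec (P := fun m => d (m + 1) / d m < 256) hm₀ hm₁
      have h2 := Nat.findGreatest_le (P := fun m => d (m + 1) / d m < 256) k
      refine ⟨_ + 1, Nat.succ_le_succ h2, fun m h3 h4 => not_lt.1
        (Nat.findGreatest_is_greatest (P := fun m => d (m + 1) / d m < 256) (by omega) h4), ?_⟩
      rw [hcut _ (by omega)] at h1
      refine le_trans (Finset.sum_le_sum_of_subset_of_nonneg
        (Finset.Ico_subset_Ico_left (by omega)) fun i _ _ => Finset.sum_nonneg fun j _ => hg i j)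
        h1.le
    · refine ⟨0, Nat.zero_le _, fun m _ h2 => not_lt.1 fun h3 => h ⟨m, h2, h3⟩, by simp⟩
  obtain ⟨b, hb1, hb2, hb3, hb4⟩ : ∃ b, k + 1 ≤ b ∧ b ≤ n ∧
      (∀ m, k ≤ m → m + 1 < b → 256 ≤ d (m + 1) / d m) ∧
      ∑ i ∈ Ico b n, ∑ j ∈ range (k + 1), w i j * d j / d i ≤ 256 := by
    by_cases h : ∃ m, k ≤ m ∧ m + 1 < n ∧ d (m + 1) / d m < 256
    · classical
      obtain ⟨h1, h2, h3⟩ := Nat.find_spec h
      refine ⟨Nat.find h + 1, by omega, by omega, fun m h4 h5 => not_lt.1 fun h6 =>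
        Nat.find_min h (by omega : m < Nat.find h) ⟨h4, by omega, h6⟩, ?_⟩
      rw [hcut _ h2] at h3
      refine le_trans (Finset.sum_le_sum fun i _ => Finset.sum_le_sum_of_subset_of_nonneg
        (Finset.range_mono (by omega)) fun j _ _ => hg i j) h3.le
    · refine ⟨n, hk.le, le_rfl, fun m h1 h2 => not_lt.1 fun h3 => h ⟨m, h1, h2, h3⟩, by simp⟩
  have hgrow : ∀ j q, a ≤ j → j + q < b → 256 ^ q * d j ≤ d (j + q) := by
    intro j q hj
    induction q with
    | zero => simp
    | succ q ih =>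
      intro hq
      have h1 := ih (by omega)
      have h2 : 256 ≤ d (j + q + 1) / d (j + q) := by
        by_cases h : j + q ≤ k
        · exact ha2 _ (by omega) h
        · exact hb3 _ (by omega) (by omega)
      rw [le_div_iff₀ (hd _)] at h2
      rw [pow_succ, ← add_assoc]
      linarith
  have hgood : ∑ i ∈ Ico (k + 1) b, ∑ j ∈ Ico a (k + 1), w i j * d j / d i ≤ 136 := by
    have h1 : ∀ i ∈ Ico (k + 1) b, ∀ j ∈ Ico a (k + 1), w i j * d j / d i ≤
        34 * ((1 / 2 : ℝ) ^ (i - (k + 1)) * (1 / 2 : ℝ) ^ (k - j)) := by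
      intro i hi j hj
      rw [Finset.mem_Ico] at hi hj
      obtain ⟨q, rfl⟩ : ∃ q, i = j + q := ⟨i - j, by omega⟩
      have h2 := hgrow j q hj.1 hi.2
      have h3 := hw (j + q) j (by omega) (by omega)
      rw [pow_add, mul_comm ((128 : ℝ) ^ j), ← mul_assoc] at h3
      have h4 : w (j + q) j ≤ 34 * 128 ^ q := le_of_mul_le_mul_right h3 (by positivity)
      have h5 : (1 / 2 : ℝ) ^ q ≤ (1 / 2 : ℝ) ^ (j + q - (k + 1)) * (1 / 2 : ℝ) ^ (k - j) := by
        rw [← pow_add]
        exact pow_le_pow_of_le_one (by norm_num) (by norm_num) (by omega)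
      have h6 : (128 : ℝ) ^ q = (1 / 2) ^ q * 256 ^ q := by rw [← mul_pow]; norm_num
      refine le_trans ?_ (mul_le_mul_of_nonneg_left h5 (by norm_num))
      rw [div_le_iff₀ (hd _)]
      calc w (j + q) j * d j ≤ 34 * 128 ^ q * d j := mul_le_mul_of_nonneg_right h4 (hd j).le
        _ = 34 * (1 / 2) ^ q * (256 ^ q * d j) := by rw [h6]; ring
        _ ≤ _ := mul_le_mul_of_nonneg_left h2 (by positivity)
    refine le_trans (Finset.sum_le_sum fun i hi => Finset.sum_le_sum (h1 i hi)) ?_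
    simp only [← Finset.mul_sum, ← Finset.sum_mul]
    have h2 := mul_le_mul (sum_half_Ico (k + 1) b) (sum_half_rev a k)
      (Finset.sum_nonneg fun _ _ => by positivity) (by norm_num)
    linarith
  rw [hcut k hk, ← Finset.sum_Ico_consecutive _ hb1 hb2]
  have h1 : ∑ i ∈ Ico (k + 1) b, ∑ j ∈ range (k + 1), w i j * d j / d i =
      ∑ i ∈ Ico (k + 1) b, ∑ j ∈ range a, w i j * d j / d i +
        ∑ i ∈ Ico (k + 1) b, ∑ j ∈ Ico a (k + 1), w i j * d j / d i := by
    rw [← Finset.sum_add_distrib]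
    exact Finset.sum_congr rfl fun i _ => (Finset.sum_range_add_sum_Ico _ ha1).symm
  have h2 : ∑ i ∈ Ico (k + 1) b, ∑ j ∈ range a, w i j * d j / d i ≤
      ∑ i ∈ Ico (k + 1) n, ∑ j ∈ range a, w i j * d j / d i :=
    Finset.sum_le_sum_of_subset_of_nonneg (Finset.Ico_subset_Ico_right hb2)
      fun i _ _ => Finset.sum_nonneg fun j _ => hg i j
  linarith

end Pool.Agent.Lib.MP_7b644b_an
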