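import Pool.Agent.Lib.MP_7b644b_an.Key

set_option autoImplicit false

namespace Pool.Agent.Lib.MP_7b644b_an

open Polynomial Finset

/-- A Hessenberg chain with diagonal `a`, signed feedback `R` and leading characteristic
polynomials `S`, whose diagonal climbs from `-t` to `0` in steps of at most one. -/
structure Chain (t n : ℕ) (a : ℕ → ℝ) (R : ℕ → ℕ → ℝ) (S : ℕ → ℝ[X]) : Prop where
  s0 : S 0 = 1
  rel : ∀ i, X * S i = S (i + 1) + C (a i) * S i + ∑ l ∈ range i, C (R i l) * S l
  a0 : a 0 = -t
  mono : ∀ i, a i ≤ a (i + 1)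
  step : ∀ i, a (i + 1) ≤ a i + 1
  az : ∀ i, n ≤ i → a i = 0
  Rz : ∀ i l, n ≤ i → R i l = 0
  Rb : ∀ i l, l < i → |R i l| ≤ 16 ^ (i + 1 - l) / 32
  Ra : ∀ i l, l < i → R i l ≠ 0 → a l + 1 ≤ a i
  roots : ∀ z : ℂ, aeval z (S n) = 0 → ‖z‖ ≤ 1

theorem Chain.monic {t n : ℕ} {a : ℕ → ℝ} {R : ℕ → ℕ → ℝ} {S : ℕ → ℝ[X]}
    (h : Chain t n a R S) (i : ℕ) : (S i).Monic ∧ (S i).natDegree = i := by
  induction i using Nat.strong_induction_on with
  | _ i ih =>
    cases i with
    | zero => rw [h.s0]; exact ⟨monic_one, natDegree_one⟩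
    | succ i =>
      have h1 : S (i + 1) = X * S i + (-(C (a i) * S i) - ∑ l ∈ range i, C (R i l) * S l) := by
        rw [h.rel i]; ring
      obtain ⟨h2, h3⟩ := ih i (Nat.lt_succ_self i)
      have h4 : (X * S i).Monic := monic_X.mul h2
      have h5 : (X * S i).natDegree = i + 1 := by
        rw [monic_X.natDegree_mul h2, natDegree_X, h3, add_comm]
      have h6 : (-(C (a i) * S i) - ∑ l ∈ range i, C (R i l) * S l).natDegree ≤ i := by
        refine le_trans (natDegree_sub_le _ _) (max_le ?_ ?_)
        · rw [natDegree_neg]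
          exact le_trans (natDegree_C_mul_le _ _) h3.le
        · refine natDegree_sum_le_of_forall_le _ _ fun l hl => ?_
          have hl' := Finset.mem_range.1 hl
          exact le_trans (natDegree_C_mul_le _ _) (by rw [(ih l (by omega)).2]; omega)
      have h7 : (-(C (a i) * S i) - ∑ l ∈ range i, C (R i l) * S l).natDegree <
          (X * S i).natDegree := by omega
      rw [h1]
      exact ⟨h4.add_of_left (degree_lt_degree h7), by
        rw [natDegree_add_eq_left_of_natDegree_lt h7, h5]⟩

theorem Chain.a_mono {t n : ℕ} {a : ℕ → ℝ} {R : ℕ → ℕ → ℝ} {S : ℕ → ℝ[X]}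
    (h : Chain t n a R S) : Monotone a := monotone_nat_of_le_succ h.mono

theorem Chain.a_nonpos {t n : ℕ} {a : ℕ → ℝ} {R : ℕ → ℕ → ℝ} {S : ℕ → ℝ[X]}
    (h : Chain t n a R S) (i : ℕ) : a i ≤ 0 := by
  rw [← h.az (i + n) (by omega)]
  exact h.a_mono (by omega)

theorem basis (S : ℕ → ℝ[X]) (hS : ∀ i, (S i).Monic ∧ (S i).natDegree = i) (m : ℕ) :
    ∃ K : ℝ, 0 ≤ K ∧ ∀ (p : ℝ[X]) (b : ℝ), (∀ j, m ≤ j → p.coeff j = 0) →
      (∀ j, |p.coeff j| ≤ b) →
      ∃ r : ℕ → ℝ, p = ∑ l ∈ range m, C (r l) * S l ∧ ∀ l, |r l| ≤ K * b := by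
  induction m with
  | zero =>
    refine ⟨0, le_rfl, fun p b h _ => ⟨fun _ => 0, ?_, by simp⟩⟩
    ext j
    simp [h j (Nat.zero_le j)]
  | succ m ih =>
    obtain ⟨K, hK, h⟩ := ih
    obtain ⟨B, hB⟩ := NB.poly zero_le_one (S m)
    have hB' : ∀ j, |(S m).coeff j| ≤ B := fun j => by
      simpa using hB.coeff_le zero_le_one j
    have hB0 := hB.nonneg
    refine ⟨1 + K * (1 + B), by positivity, fun p b h1 h2 => ?_⟩
    have hb : 0 ≤ b := le_trans (abs_nonneg _) (h2 0)
    obtain ⟨r, h3, h4⟩ := h (p - C (p.coeff m) * S m) ((1 + B) * b) (by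
      intro j hj
      rw [coeff_sub, coeff_C_mul]
      rcases hj.eq_or_lt with rfl | hj
      · have : (S m).coeff m = 1 := by
          have := (hS m).1.coeff_natDegree
          rwa [(hS m).2] at this
        rw [this]; ring
      · rw [h1 j hj, coeff_eq_zero_of_natDegree_lt (p := S m) (by rw [(hS m).2]; exact hj)]
        ring) (by
      intro j
      rw [coeff_sub, coeff_C_mul]
      refine le_trans (abs_sub _ _) ?_
      rw [abs_mul]
      have := mul_le_mul (h2 m) (hB' j) (abs_nonneg _) hb
      have := h2 j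
      linarith)
    refine ⟨fun l => if l = m then p.coeff m else r l, ?_, fun l => ?_⟩
    · simp only []
      rw [Finset.sum_range_succ, if_pos rfl, Finset.sum_congr rfl (g := fun l => C (r l) * S l)
        fun l hl => by rw [if_neg (Finset.mem_range.1 hl).ne], ← h3]
      ring
    · have h5 : 0 ≤ K * (1 + B) * b := by positivity
      simp only []
      split_ifs
      · have := h2 m
        linarith
      · have := h4 l
        linarith

theorem chain_zero : Chain 0 0 (fun _ => 0) (fun _ _ => 0) (fun i => X ^ i) where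
  s0 := by simp
  rel := fun i => by simp [pow_succ']
  a0 := by simp
  mono := fun _ => le_rfl
  step := fun _ => by simp
  az := fun _ _ => rfl
  Rz := fun _ _ _ => rfl
  Rb := fun i l _ => by simp only [abs_zero]; positivity
  Ra := fun i l _ h => (h rfl).elim
  roots := by simp

theorem Chain.next {t m : ℕ} {a : ℕ → ℝ} {R : ℕ → ℕ → ℝ} {S : ℕ → ℝ[X]}
    (h : Chain t m a R S) : ∃ n a' R' S', Chain (t + 1) n a' R' S' := by
  set S₁ : ℕ → ℝ[X] := fun i => (S i).comp (X + C 1) with hS₁
  have hmon : ∀ i, (S₁ i).Monic ∧ (S₁ i).natDegree = i := fun i =>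
    ⟨(h.monic i).1.comp_X_add_C 1, by
      rw [hS₁]; simp only []
      rw [natDegree_comp, natDegree_X_add_C, mul_one, (h.monic i).2]⟩
  have hrel : ∀ i, X * S₁ i = S₁ (i + 1) + C (a i - 1) * S₁ i +
      ∑ l ∈ range i, C (R i l) * S₁ l := by
    intro i
    have := congrArg (fun p : ℝ[X] => p.comp (X + C 1)) (h.rel i)
    simp only [add_comp, mul_comp, X_comp, C_comp, Polynomial.sum_comp] at this
    rw [C_sub]
    simp only [hS₁]
    linear_combination this
  obtain ⟨K, hK, hbasis⟩ := basis S₁ hmon m
  obtain ⟨N, u, rem, hN, hu0, hu1, hub, hrz, hrb, hroots⟩ := key (S₁ m) (hmon m).1 (by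
    intro z hz
    rw [hS₁] at hz
    simp only [aeval_comp, map_add, aeval_X, map_one] at hz
    have h1 := h.roots _ hz
    have h2 := norm_sub_le (z + 1) 1
    rw [add_sub_cancel_right, norm_one] at h2
    linarith) (K + 1) (by linarith)
  rw [(hmon m).2] at hrz
  obtain ⟨r, hr1, hr2⟩ := hbasis rem (16 ^ (N + 2) / 32 / (K + 1)) hrz fun j => by
    rw [le_div_iff₀ (by linarith), mul_comm]; exact hrb j
  have hr3 : ∀ l, |r l| ≤ 16 ^ (N + 2) / 32 := fun l => by
    refine le_trans (hr2 l) ?_
    rw [← mul_div_assoc, div_le_iff₀ (by linarith)]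
    have : (0 : ℝ) ≤ 16 ^ (N + 2) / 32 := by positivity
    nlinarith
  set S' : ℕ → ℝ[X] := fun i => if i ≤ m then S₁ i else if i ≤ m + N then Q u (i - m) * S₁ m
    else X ^ (i - (m + N + 1)) * (Q u (N + 1) * S₁ m + rem) with hS'
  have e1 : ∀ i, i ≤ m → S' i = S₁ i := fun i hi => by rw [hS']; simp only []; rw [if_pos hi]
  have e2 : ∀ k, k ≤ N → S' (m + k) = Q u k * S₁ m := fun k hk => by
    rcases Nat.eq_zero_or_pos k with rfl | hk0
    · rw [e1 _ (by omega), Q, hu0]; simp
    · rw [hS']; simp only []
      rw [if_neg (by omega), if_pos (by omega), Nat.add_sub_cancel_left]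
  have e3 : ∀ k, S' (m + N + 1 + k) = X ^ k * (Q u (N + 1) * S₁ m + rem) := fun k => by
    rw [hS']; simp only []
    rw [if_neg (by omega), if_neg (by omega), Nat.add_sub_cancel_left]
  refine ⟨m + N + 1, fun i => if i ≤ m then a i - 1 else 0,
    fun i l => if i ≤ m then R i l else if i ≤ m + N then
      (if l = m then -u (i - m + 1) else 0) + (if i = m + N ∧ l < m then -r l else 0) else 0,
    S', ?_, ?_, ?_, ?_, ?_, ?_, ?_, ?_, ?_, ?_⟩
  · rw [e1 0 (Nat.zero_le m), hS₁]; simp [h.s0]
  · intro i
    by_cases h1 : i ≤ m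
    · simp only [if_pos h1]
      rw [Finset.sum_congr rfl (g := fun l => C (R i l) * S₁ l) fun l hl => by
        rw [e1 l (by have := Finset.mem_range.1 hl; omega)], e1 i h1, hrel i]
      congr 2
      rcases h1.eq_or_lt with rfl | h2
      · rw [e2 1 hN]
        have h3 := hrel i
        rw [h.az i le_rfl, Finset.sum_eq_zero fun l _ => by rw [h.Rz i l le_rfl]; simp] at h3
        simp only [Q, hu0, hu1, zero_add, zero_sub, C_neg, C_1] at h3 ⊢
        linear_combination -h3
      · rw [e1 _ h2]
    · simp only [if_neg h1]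
      by_cases h2 : i ≤ m + N
      · simp only [if_pos h2, C_add, add_mul, Finset.sum_add_distrib]
        obtain ⟨k, rfl⟩ : ∃ k, i = m + k := ⟨i - m, by omega⟩
        have s1 : ∑ l ∈ range (m + k), C (if l = m then -u (m + k - m + 1) else 0) * S' l =
            -(C (u (k + 1)) * S₁ m) := by
          rw [Finset.sum_eq_single m, if_pos rfl, e1 m le_rfl, Nat.add_sub_cancel_left]
          · simp
          · intro l _ hl
            rw [if_neg hl]; simp
          · intro hm
            exact (hm (Finset.mem_range.2 (by omega))).elim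
        rw [s1, e2 k (by omega)]
        by_cases h3 : k = N
        · subst h3
          have s2 : ∑ l ∈ range (m + k), C (if m + k = m + k ∧ l < m then -r l else 0) * S' l =
              -rem := by
            rw [hr1, ← Finset.sum_neg_distrib]
            symm
            refine (Finset.sum_congr rfl fun l hl => ?_).trans
              (Finset.sum_subset (Finset.range_mono (Nat.le_add_right m k)) fun l _ hl => ?_)
            · have hl' := Finset.mem_range.1 hl
              rw [if_pos ⟨rfl, hl'⟩, e1 l hl'.le]; simp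
            · rw [if_neg fun hh => hl (Finset.mem_range.2 hh.2)]; simp
          have h4 := e3 0
          rw [add_zero] at h4
          rw [s2, h4, Q]
          simp only [C_0]
          ring
        · rw [Finset.sum_eq_zero fun l _ => by rw [if_neg fun hh => h3 (by omega)]; simp,
            add_assoc m k 1, e2 (k + 1) (by omega), Q]
          simp only [C_0]
          ring
      · simp only [if_neg h2]
        obtain ⟨k, rfl⟩ : ∃ k, i = m + N + 1 + k := ⟨i - (m + N + 1), by omega⟩
        rw [add_assoc (m + N + 1) k 1, e3, e3]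
        simp only [C_0, zero_mul, Finset.sum_const_zero]
        ring
  · simp only [if_pos (Nat.zero_le m), h.a0]
    push_cast
    ring
  · intro i
    have := h.mono i
    have := h.a_nonpos i
    split_ifs <;> linarith
  · intro i
    have := h.step i
    split_ifs with h1 h2 h2
    · linarith
    · omega
    · rw [h.az i (by omega)]; linarith
    · linarith
  · intro i hi
    rw [if_neg (by omega)]
  · intro i l hi
    rw [if_neg (by omega), if_neg (by omega)]
  · intro i l hl
    by_cases h1 : i ≤ m
    · rw [if_pos h1]; exact h.Rb i l hl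
    · rw [if_neg h1]
      have h0 : (0 : ℝ) ≤ 16 ^ (i + 1 - l) / 32 := by positivity
      split_ifs with h2 h3 h4 h4
      · omega
      · rw [add_zero, abs_neg, h3, show i + 1 - m = i - m + 1 by omega]
        exact hub _ (by omega)
      · rw [zero_add, abs_neg]
        refine le_trans (hr3 l) (div_le_div_of_nonneg_right ?_ (by norm_num))
        exact pow_le_pow_right₀ (by norm_num) (by omega)
      · simpa using h0
      · simpa using h0
  · intro i l hl hR
    by_cases h1 : i ≤ m
    · rw [if_pos h1] at hR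
      have := h.Ra i l hl hR
      rw [if_pos h1, if_pos (by omega)]
      linarith
    · rw [if_neg h1] at hR
      have h2 : l ≤ m := by
        by_contra h2
        apply hR
        rw [if_neg (by omega : ¬ l = m), if_neg (by omega : ¬ (i = m + N ∧ l < m))]
        simp
      rw [if_neg h1, if_pos h2]
      have := h.a_nonpos l
      linarith
  · have h4 := e3 0
    rw [add_zero, pow_zero, one_mul] at h4
    rw [h4]
    exact hroots

theorem chain_exists (t : ℕ) : ∃ n a R S, Chain t n a R S := by
  induction t with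
  | zero => exact ⟨_, _, _, _, chain_zero⟩
  | succ t ih =>
    obtain ⟨n, a, R, S, h⟩ := ih
    exact h.next

end Pool.Agent.Lib.MP_7b644b_an
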