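import Pool.Agent.Lib.MP_7b644b_an.Data

set_option autoImplicit false

namespace Pool.Agent.Lib.MP_7b644b_an

open Finset

def aQ (i j : Fin 20) : ℚ := (aTab.getD i.val []).getD j.val 0

def eQ (i : Fin 20) : ℚ := eTab.getD i.val 0

def uQ (j : Fin 20) (k : ℕ) : ℚ := (uTab.getD j.val []).getD k 0

def pQ (k : ℕ) : ℚ := pTab.getD k 0

/-- The shifted matrix `A - E + (997/1000) I`. -/
def nQ (i j : Fin 20) : ℚ := aQ i j - if i = j then eQ i - 997 / 1000 else 0

theorem aQ_nonneg : ∀ i j : Fin 20, 0 ≤ aQ i j := by decide +kernel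

theorem aQ_sum : ∀ i : Fin 20, ∑ j, aQ i j = 1 := by decide +kernel

theorem eQ_nonneg : ∀ i : Fin 20, 0 ≤ eQ i := by decide +kernel

theorem eQ_zero : 3 ≤ eQ 0 := by decide +kernel

theorem uQ_top : ∀ j : Fin 20, uQ j 20 = 0 := by decide +kernel

theorem nQ_hess : ∀ i j : Fin 20, i.val + 1 < j.val → nQ i j = 0 := by decide +kernel

theorem nQ_super : ∀ i j : Fin 20, i.val + 1 = j.val → nQ i j ≠ 0 := by decide +kernel

theorem cert : ∀ c : Fin 20, ∀ k : Fin 21,
    (if k.val = 0 then 0 else uQ c (k.val - 1)) - ∑ j, uQ j k.val * nQ j c =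
      if c = 0 then pQ k.val else 0 := by decide +kernel

theorem pQ_eval (t : ℂ) : ∑ k ∈ range 21, (pQ k : ℂ) * t ^ k =
    t ^ 17 * ((t - 1097 / 1000) * (t - 1417 / 1000) * (t - 1677 / 1000)) := by
  simp only [sum_range_succ, range_zero, sum_empty, pQ, pTab, List.getD_cons_succ,
    List.getD_cons_zero]
  push_cast
  ring

/-- Every eigenvalue of the shifted matrix is a root of the explicit polynomial. -/
theorem eigen_root (t : ℂ) (v : Fin 20 → ℂ) (hv : v ≠ 0)
    (h : ∀ i, ∑ j, (nQ i j : ℂ) * v j = t * v i) :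
    t ^ 17 * ((t - 1097 / 1000) * (t - 1417 / 1000) * (t - 1677 / 1000)) = 0 := by
  have hv0 : v 0 ≠ 0 := by
    intro h0
    apply hv
    have key : ∀ m : ℕ, ∀ j : Fin 20, j.val ≤ m → v j = 0 := by
      intro m
      induction m with
      | zero =>
        intro j hj
        have : j = 0 := Fin.ext (by simpa using hj)
        rw [this, h0]
      | succ m ih =>
        intro j hj
        rcases Nat.lt_or_ge j.val (m + 1) with hlt | hge
        · exact ih j (by omega)
        · have hm : m < 20 := by omega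
          have h1 := h ⟨m, hm⟩
          rw [ih ⟨m, hm⟩ le_rfl, mul_zero, Finset.sum_eq_single j] at h1
          · have h2 : (nQ ⟨m, hm⟩ j : ℂ) ≠ 0 := by
              exact_mod_cast nQ_super ⟨m, hm⟩ j (by simp only; omega)
            exact (mul_eq_zero.mp h1).resolve_left h2
          · intro b _ hb
            rcases Nat.lt_or_ge b.val (m + 1) with hb1 | hb1
            · rw [ih b (by omega), mul_zero]
            · have hne : b.val ≠ j.val := fun hh => hb (Fin.ext hh)
              rw [nQ_hess ⟨m, hm⟩ b (by simp only; omega)]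
              simp
          · intro hh
            exact absurd (Finset.mem_univ j) hh
    funext j
    exact key j.val j le_rfl
  let u : Fin 20 → ℂ := fun j => ∑ k ∈ range 21, (uQ j k : ℂ) * t ^ k
  have hcol : ∀ c : Fin 20, t * u c - ∑ j, u j * (nQ j c : ℂ) =
      if c = 0 then ∑ k ∈ range 21, (pQ k : ℂ) * t ^ k else 0 := by
    intro c
    have e1 : t * u c =
        ∑ k ∈ range 21, ((if k = 0 then 0 else uQ c (k - 1) : ℚ) : ℂ) * t ^ k := by
      simp only [u]
      rw [sum_range_succ _ 20, uQ_top, sum_range_succ' _ 20, mul_add, mul_sum]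
      simp only [Rat.cast_zero, zero_mul, mul_zero, add_zero, if_true, Nat.add_one_ne_zero,
        if_false, Nat.add_sub_cancel]
      refine sum_congr rfl fun k _ => ?_
      ring
    have e2 : ∑ j, u j * (nQ j c : ℂ) =
        ∑ k ∈ range 21, ((∑ j, uQ j k * nQ j c : ℚ) : ℂ) * t ^ k := by
      simp only [u, sum_mul]
      rw [sum_comm]
      refine sum_congr rfl fun k _ => ?_
      push_cast
      rw [sum_mul]
      refine sum_congr rfl fun j _ => ?_
      ring
    rw [e1, e2, ← sum_sub_distrib]
    have e3 : ∀ k ∈ range 21,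
        ((if k = 0 then 0 else uQ c (k - 1) : ℚ) : ℂ) * t ^ k -
          ((∑ j, uQ j k * nQ j c : ℚ) : ℂ) * t ^ k =
        ((if c = 0 then pQ k else 0 : ℚ) : ℂ) * t ^ k := by
      intro k hk
      have := cert c ⟨k, mem_range.mp hk⟩
      simp only at this
      rw [← this, Rat.cast_sub, sub_mul]
    rw [sum_congr rfl e3]
    split_ifs with hc
    · rfl
    · simp
  have hsum : ∑ c, (t * u c - ∑ j, u j * (nQ j c : ℂ)) * v c = 0 := by
    have e4 : ∑ c, (∑ j, u j * (nQ j c : ℂ)) * v c = ∑ j, u j * (t * v j) := by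
      simp only [sum_mul]
      rw [sum_comm]
      refine sum_congr rfl fun j _ => ?_
      rw [← h j, mul_sum]
      refine sum_congr rfl fun c _ => ?_
      ring
    simp only [sub_mul, sum_sub_distrib]
    rw [e4, sub_eq_zero]
    refine sum_congr rfl fun j _ => ?_
    ring
  simp only [hcol, ite_mul, zero_mul, sum_ite_eq', mem_univ, if_true] at hsum
  rw [← pQ_eval]
  exact (mul_eq_zero.mp hsum).resolve_right hv0

theorem eigen_norm (μ : ℂ) (v : Fin 20 → ℂ) (hv : v ≠ 0)
    (h : ∀ i, ∑ j, (nQ i j : ℂ) * v j = (μ + 997 / 1000) * v i) : ‖μ‖ ≤ 997 / 1000 := by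
  have h1 := eigen_root _ v hv h
  have hr : ∀ r : ℝ, |r| ≤ 997 / 1000 → μ = r → ‖μ‖ ≤ 997 / 1000 := by
    intro r h1 h2
    rw [h2, Complex.norm_real]
    exact h1
  rcases mul_eq_zero.mp h1 with h2 | h2
  · have h3 := pow_eq_zero_iff (by norm_num) |>.mp h2
    refine hr (-(997 / 1000)) (by norm_num [abs_le]) ?_
    push_cast
    linear_combination h3
  · rcases mul_eq_zero.mp h2 with h3 | h3
    · rcases mul_eq_zero.mp h3 with h4 | h4
      · refine hr (1 / 10) (by norm_num [abs_le]) ?_
        push_cast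
        linear_combination h4
      · refine hr (21 / 50) (by norm_num [abs_le]) ?_
        push_cast
        linear_combination h4
    · refine hr (17 / 25) (by norm_num [abs_le]) ?_
      push_cast
      linear_combination h3

end Pool.Agent.Lib.MP_7b644b_an
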