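import Pool.Agent.Lib.MP_7b644b_an.Series

set_option autoImplicit false

namespace Pool.Agent.Lib.MP_7b644b_an

open Polynomial Finset

/-- Horner polynomials `u 0 X ^ k + u 1 X ^ (k - 1) + ... + u k`. -/
noncomputable def Q (u : ℕ → ℝ) : ℕ → ℝ[X]
  | 0 => C (u 0)
  | k + 1 => X * Q u k + C (u (k + 1))

theorem coeff_Q (u : ℕ → ℝ) (k j : ℕ) : (Q u k).coeff j = if j ≤ k then u (k - j) else 0 := by
  induction k generalizing j with
  | zero =>
    rw [Q, coeff_C]
    rcases Nat.eq_zero_or_pos j with rfl | h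
    · simp
    · rw [if_neg (by omega), if_neg (by omega)]
  | succ k ih =>
    rw [Q, coeff_add, coeff_C]
    cases j with
    | zero => simp
    | succ j =>
      rw [coeff_X_mul, ih, if_neg (Nat.succ_ne_zero j), add_zero]
      simp

theorem reflect_trunc (u : PowerSeries ℝ) (k : ℕ) :
    reflect k (PowerSeries.trunc (k + 1) u) = Q (fun i => PowerSeries.coeff i u) k := by
  ext j
  rw [coeff_reflect, coeff_Q, PowerSeries.coeff_trunc]
  by_cases h : j ≤ k
  · rw [revAt_le h, if_pos (by omega), if_pos h]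
  · rw [revAt_eq_self_of_lt (by omega), if_neg (by omega), if_neg h]

theorem X_pow_dvd_sub_trunc (u : PowerSeries ℝ) (k : ℕ) :
    PowerSeries.X ^ k ∣ u - ((PowerSeries.trunc k u : ℝ[X]) : PowerSeries ℝ) := by
  rw [PowerSeries.X_pow_dvd_iff]
  intro i hi
  rw [map_sub, Polynomial.coeff_coe, PowerSeries.coeff_trunc, if_pos hi, sub_self]

/-- A polynomial without zeros in the closed unit disc that is very close to `(1 + x) g x`
on a small disc. -/
theorem approx (G : ℝ[X]) (ι : PowerSeries ℝ) (b : ℝ) (h : (G : PowerSeries ℝ) * ι = 1)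
    (h0 : PowerSeries.constantCoeff ι = 1) (hb : NB (1 / 4) ι b) :
    ∃ B : ℝ, ∀ J : ℕ, ∃ τ : ℝ[X], (∀ x : ℂ, ‖x‖ ≤ 1 → aeval x τ ≠ 0) ∧
      NB (1 / 8) ((τ : PowerSeries ℝ) * ι) B ∧
      PowerSeries.X ^ (J + 1) ∣ (τ : PowerSeries ℝ) * ι - 1 := by
  obtain ⟨b₁, hb₁⟩ := NB.poly (by norm_num : (0 : ℝ) ≤ 1 / 4) (derivative G)
  rw [← PowerSeries.derivative_coe] at hb₁
  have hℓ := hb₁.mul (by norm_num) hb
  set c := b₁ * b / 4 with hc
  have hc0 : 0 ≤ c := by have := hℓ.nonneg; positivity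
  have hℓ' : ∀ k, |PowerSeries.coeff k (PowerSeries.derivative ℝ (G : PowerSeries ℝ) * ι)| ≤
      4 * c * 4 ^ k := by
    intro k
    have := hℓ.coeff_le (by norm_num) k
    rw [Real.norm_eq_abs, one_div, inv_pow, ← div_eq_mul_inv, div_le_iff₀ (by positivity)] at this
    rw [hc]; linarith
  refine ⟨Real.exp c * b, fun J => ?_⟩
  obtain ⟨P, hP⟩ := exists_nat_gt (c + c * ∑ k ∈ range J, (4 : ℝ) ^ (k + 1))
  have hsum : 0 ≤ c * ∑ k ∈ range J, (4 : ℝ) ^ (k + 1) := by positivity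
  have hP0 : (0 : ℝ) < P := by linarith
  have hw := rootSeq_bound _ P c hc0 (by linarith) hP0 hℓ'
  have hpow := rootSeq_pow _ ι h h0 P (by exact_mod_cast hP0)
  set w := rootSeq (fun k => PowerSeries.coeff k
    (PowerSeries.derivative ℝ (G : PowerSeries ℝ) * ι)) P with hwdef
  have hw0 : w 0 = 1 := by rw [hwdef, rootSeq]
  have hcP : 0 ≤ c / P := by positivity
  refine ⟨PowerSeries.trunc (J + 1) (PowerSeries.mk w) ^ P, fun x hx => ?_, ?_, ?_⟩
  · rw [map_pow]
    refine pow_ne_zero _ ?_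
    rw [aeval_def, PowerSeries.eval₂_trunc_eq_sum_range, Finset.sum_range_succ']
    simp only [PowerSeries.coeff_mk, hw0, map_one, pow_zero, mul_one]
    intro hz
    have h1 : ‖∑ k ∈ range J, algebraMap ℝ ℂ (w (k + 1)) * x ^ (k + 1)‖ = 1 := by
      rw [eq_neg_of_add_eq_zero_left hz]; simp
    have h2 : ‖∑ k ∈ range J, algebraMap ℝ ℂ (w (k + 1)) * x ^ (k + 1)‖ ≤
        c / P * ∑ k ∈ range J, (4 : ℝ) ^ (k + 1) := by
      rw [Finset.mul_sum]
      refine le_trans (norm_sum_le _ _) (Finset.sum_le_sum fun k _ => ?_)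
      rw [norm_mul, norm_pow, norm_algebraMap', Real.norm_eq_abs]
      exact le_trans (mul_le_of_le_one_right (abs_nonneg _) (pow_le_one₀ (norm_nonneg _) hx))
        (hw k)
    rw [h1, div_mul_eq_mul_div, le_div_iff₀ hP0] at h2
    linarith
  · have h1 : NB (1 / 8) (PowerSeries.mk w) (1 + c / P) := by
      intro K
      cases K with
      | zero => simp only [range_zero, sum_empty]; linarith
      | succ K =>
        rw [Finset.sum_range_succ']
        simp only [PowerSeries.coeff_mk, hw0, norm_one, pow_zero, mul_one]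
        have h2 : ∑ k ∈ range K, ‖w (k + 1)‖ * (1 / 8 : ℝ) ^ (k + 1) ≤
            ∑ k ∈ range K, c / P / 2 * (1 / 2 : ℝ) ^ k := by
          refine Finset.sum_le_sum fun k _ => ?_
          refine le_trans (mul_le_mul_of_nonneg_right (hw k) (by positivity)) (le_of_eq ?_)
          rw [mul_assoc, ← mul_pow, pow_succ]
          norm_num
          ring
        rw [← Finset.mul_sum] at h2
        have h3 := mul_le_mul_of_nonneg_left (geom_half K) (by positivity : 0 ≤ c / P / 2)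
        linarith
    have h2 : NB (1 / 8) ((PowerSeries.trunc (J + 1) (PowerSeries.mk w) : ℝ[X]) : PowerSeries ℝ)
        (1 + c / P) := by
      refine h1.of_le (by norm_num) fun k => ?_
      rw [Polynomial.coeff_coe, PowerSeries.coeff_trunc]
      split_ifs
      · exact le_rfl
      · simp
    have h3 := (h2.pow (by norm_num) P).mul (by norm_num)
      (hb.radius (by norm_num : (0 : ℝ) ≤ 1 / 8) (by norm_num))
    rw [Polynomial.coe_pow]
    intro K
    refine le_trans (h3 K) (mul_le_mul_of_nonneg_right ?_ hb.nonneg)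
    calc (1 + c / P) ^ P ≤ Real.exp (c / P) ^ P :=
          pow_le_pow_left₀ (by positivity) (by linarith [Real.add_one_le_exp (c / P)]) P
      _ = Real.exp c := by rw [← Real.exp_nat_mul]; congr 1; field_simp
  · rw [← hpow, Polynomial.coe_pow, ← sub_mul]
    refine Dvd.dvd.mul_right (Dvd.dvd.trans ?_ (sub_dvd_pow_sub_pow _ _ P)) _
    rw [← dvd_neg, neg_sub]
    exact X_pow_dvd_sub_trunc _ _

theorem key (g : ℝ[X]) (hg : g.Monic) (hr : ∀ z : ℂ, aeval z g = 0 → ‖z‖ ≤ 2) (K : ℝ)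
    (hK : 0 ≤ K) :
    ∃ (N : ℕ) (u : ℕ → ℝ) (rem : ℝ[X]), 1 ≤ N ∧ u 0 = 1 ∧ u 1 = 1 ∧
      (∀ k, 2 ≤ k → |u k| ≤ 16 ^ k / 32) ∧ (∀ j, g.natDegree ≤ j → rem.coeff j = 0) ∧
      (∀ j, K * |rem.coeff j| ≤ 16 ^ (N + 2) / 32) ∧
      ∀ z : ℂ, aeval z (Q u (N + 1) * g + rem) = 0 → ‖z‖ ≤ 1 := by
  set m := g.natDegree with hm
  have hG : ((X + C 1) * g).Monic := (monic_X_add_C 1).mul hg
  have hGd : ((X + C 1) * g).natDegree = 1 + m := by
    rw [(monic_X_add_C 1).natDegree_mul hg, natDegree_X_add_C]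
  obtain ⟨ι, b, h1, hb⟩ := inv_real _ hG (by
    intro z hz
    rw [map_mul, mul_eq_zero] at hz
    rcases hz with hz | hz
    · have : z = -1 := by simpa [add_eq_zero_iff_eq_neg] using hz
      rw [this]; simp
    · exact hr z hz)
  have hrefl : reflect (1 + m) ((X + C 1) * g) = (1 + X) * reflect m g := by
    rw [reflect_mul _ _ (natDegree_X_add_C 1).le le_rfl, reflect_add, reflect_one_X, reflect_C,
      C_1, one_mul, pow_one]
  rw [hGd, hrefl] at h1
  have hg0 : (reflect m g).coeff 0 = 1 := by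
    rw [coeff_reflect, revAt_le (Nat.zero_le _), Nat.sub_zero]; exact hg
  have h0 : PowerSeries.constantCoeff ι = 1 := by
    have := congrArg PowerSeries.constantCoeff h1
    rw [map_mul, Polynomial.constantCoeff_coe, mul_coeff_zero, hg0] at this
    simpa using this
  obtain ⟨B₀, hB₀⟩ := approx _ ι b h1 h0 hb
  obtain ⟨b₁, hb₁⟩ := NB.poly (by norm_num : (0 : ℝ) ≤ 1 / 8) (1 + X : ℝ[X])
  obtain ⟨b₂, hb₂⟩ := NB.poly (by norm_num : (0 : ℝ) ≤ 1 / 8) (reflect m g)
  obtain ⟨J, hJ⟩ := pow_unbounded_of_one_lt (32 * (B₀ * b₁)) (by norm_num : (1 : ℝ) < 2)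
  obtain ⟨τ, hτ, hτb, hτd⟩ := hB₀ (J + 1)
  set u : PowerSeries ℝ := (τ : PowerSeries ℝ) * ι * ((1 + X : ℝ[X]) : PowerSeries ℝ) with hu
  have hub : NB (1 / 8) u (B₀ * b₁) := hτb.mul (by norm_num) hb₁
  have hud : PowerSeries.X ^ (J + 1 + 1) ∣ u - ((1 + X : ℝ[X]) : PowerSeries ℝ) := by
    have : u - ((1 + X : ℝ[X]) : PowerSeries ℝ) =
      ((τ : PowerSeries ℝ) * ι - 1) * ((1 + X : ℝ[X]) : PowerSeries ℝ) := by rw [hu]; ring
    rw [this]; exact hτd.mul_right _
  have hlow : ∀ k, k < J + 2 → PowerSeries.coeff k u = (1 + X : ℝ[X]).coeff k := by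
    intro k hk
    have := PowerSeries.X_pow_dvd_iff.1 hud k hk
    rwa [map_sub, sub_eq_zero, Polynomial.coeff_coe] at this
  have hug : u * (reflect m g : ℝ[X]) = τ := by
    rw [Polynomial.coe_mul] at h1
    rw [hu]
    linear_combination (τ : PowerSeries ℝ) * h1
  obtain ⟨N₀, hN₀⟩ := pow_unbounded_of_one_lt (K * (B₀ * b₁ * b₂) * 8 ^ m)
    (by norm_num : (1 : ℝ) < 2)
  obtain ⟨N, hN1, hN2, hN3⟩ : ∃ N : ℕ, 1 ≤ N ∧ τ.natDegree ≤ N ∧ N₀ ≤ N :=
    ⟨1 + τ.natDegree + N₀, by omega, by omega, by omega⟩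
  set U : ℝ[X] := PowerSeries.trunc (N + 1 + 1) u with hU
  have hUd : U.natDegree ≤ N + 1 := Nat.lt_succ_iff.1 (PowerSeries.natDegree_trunc_lt u (N + 1))
  have hgd : (reflect m g).natDegree ≤ m := by
    have := natDegree_reflect_le (N := m) (p := g)
    rwa [← hm, max_self] at this
  have hdeg : (τ - U * reflect m g).natDegree ≤ N + 1 + m := by
    refine le_trans (natDegree_sub_le _ _) (max_le (by omega) ?_)
    exact le_trans natDegree_mul_le (by omega)
  have hdiff : ((τ - U * reflect m g : ℝ[X]) : PowerSeries ℝ) =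
      (u - (U : PowerSeries ℝ)) * ((reflect m g : ℝ[X]) : PowerSeries ℝ) := by
    rw [Polynomial.coe_sub, Polynomial.coe_mul, ← hug]; ring
  have hB : 0 ≤ B₀ * b₁ := hub.nonneg
  refine ⟨N, fun k => PowerSeries.coeff k u, reflect (N + 1 + m) (τ - U * reflect m g), hN1,
    ?_, ?_, ?_, ?_, ?_, ?_⟩
  · simp only []
    rw [hlow 0 (by omega)]; simp
  · simp only []
    rw [hlow 1 (by omega)]; simp [coeff_one]
  · intro k hk
    simp only []
    by_cases hkJ : k < J + 2
    · rw [hlow k hkJ, coeff_add, coeff_one, coeff_X, if_neg (by omega), if_neg (by omega)]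
      simp only [add_zero, abs_zero]
      positivity
    · have h2 := hub.coeff_le (by norm_num) k
      rw [Real.norm_eq_abs, one_div, inv_pow, ← div_eq_mul_inv, div_le_iff₀ (by positivity)] at h2
      have h3 : (2 : ℝ) ^ J ≤ 2 ^ k := pow_le_pow_right₀ (by norm_num) (by omega)
      have h4 : (16 : ℝ) ^ k = 2 ^ k * 8 ^ k := by rw [← mul_pow]; norm_num
      have h5 : B₀ * b₁ * 8 ^ k ≤ 2 ^ k / 32 * 8 ^ k :=
        mul_le_mul_of_nonneg_right (by linarith) (by positivity)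
      rw [h4]; linarith
  · intro j hj
    rw [coeff_reflect]
    by_cases hjD : j ≤ N + 1 + m
    · rw [revAt_le hjD, ← Polynomial.coeff_coe, hdiff]
      exact PowerSeries.X_pow_dvd_iff.1 ((X_pow_dvd_sub_trunc u (N + 1 + 1)).mul_right _) _
        (by omega)
    · rw [revAt_eq_self_of_lt (by omega)]
      exact coeff_eq_zero_of_natDegree_lt (by omega)
  · intro j
    rw [coeff_reflect]
    by_cases hjD : j ≤ N + 1 + m
    · rw [revAt_le hjD, ← Polynomial.coeff_coe, hdiff]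
      have h2 : NB (1 / 8) (u - (U : PowerSeries ℝ)) (B₀ * b₁) := by
        refine hub.of_le (by norm_num) fun k => ?_
        rw [map_sub, Polynomial.coeff_coe, hU, PowerSeries.coeff_trunc]
        split_ifs <;> simp
      have h3 := (h2.mul (by norm_num) hb₂).coeff_le (by norm_num) (N + 1 + m - j)
      rw [Real.norm_eq_abs, one_div, inv_pow, ← div_eq_mul_inv, div_le_iff₀ (by positivity)] at h3
      have h4 : (8 : ℝ) ^ (N + 1 + m - j) ≤ 8 ^ (N + 1 + m) :=
        pow_le_pow_right₀ (by norm_num) (by omega)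
      have h5 : 0 ≤ B₀ * b₁ * b₂ := mul_nonneg hB hb₂.nonneg
      have h6 : (2 : ℝ) ^ N₀ ≤ 2 ^ N := pow_le_pow_right₀ (by norm_num) hN3
      have h7 : (16 : ℝ) ^ (N + 2) / 32 = 2 ^ N * (8 * 8 ^ N) := by
        rw [show (16 : ℝ) = 2 * 8 by norm_num, mul_pow]; ring
      calc _ ≤ K * (B₀ * b₁ * b₂ * 8 ^ (N + 1 + m)) :=
            mul_le_mul_of_nonneg_left (le_trans h3 (mul_le_mul_of_nonneg_left h4 h5)) hK
        _ = K * (B₀ * b₁ * b₂) * 8 ^ m * (8 * 8 ^ N) := by ring
        _ ≤ 2 ^ N * (8 * 8 ^ N) := mul_le_mul_of_nonneg_right (by linarith) (by positivity)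
        _ = _ := h7.symm
    · rw [revAt_eq_self_of_lt (by omega), coeff_eq_zero_of_natDegree_lt (by omega)]
      simp only [abs_zero, mul_zero]
      positivity
  · intro z hz
    have h2 : Q (fun k => PowerSeries.coeff k u) (N + 1) * g +
        reflect (N + 1 + m) (τ - U * reflect m g) = reflect (N + 1 + m) τ := by
      rw [reflect_sub, reflect_mul _ _ hUd hgd, reflect_reflect, hU, reflect_trunc]
      ring
    rw [h2] at hz
    by_contra hcon
    have hz1 : 1 < ‖z‖ := not_le.1 hcon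
    have hz0 : z ≠ 0 := by
      rintro rfl
      simp at hz1
      linarith
    let _ : Invertible z⁻¹ := invertibleOfNonzero (inv_ne_zero hz0)
    have h3 := (eval₂_reflect_eq_zero_iff (algebraMap ℝ ℂ) z⁻¹ (N + 1 + m) τ (by omega)).1
      (by rw [invOf_eq_inv, inv_inv, ← aeval_def]; exact hz)
    refine hτ z⁻¹ ?_ (by rw [aeval_def]; exact h3)
    rw [norm_inv]
    exact inv_le_one_of_one_le₀ hz1.le

end Pool.Agent.Lib.MP_7b644b_an
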