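import Pool.Agent.Lib.MP_7b644b_an.Sign
import Pool.Agent.Lib.MP_7b644b_an.Balance

set_option autoImplicit false

namespace Pool.Agent.Lib.MP_7b644b_an

open Polynomial Finset

theorem Chain.row_split {t m : ℕ} {a : ℕ → ℝ} {R : ℕ → ℕ → ℝ} {S : ℕ → ℝ[X]}
    (h : Chain t m a R S) (n i : ℕ) (hi : i < n) :
    Cone (fun l => S l - Y S l) n i (2 * 128 ^ i)
      (X * (S i - Y S i) - (S (i + 1) - Y S (i + 1)) - C (a i) * (S i - Y S i) -
        C (32 ^ (i + 1)) * (S 0 - Y S 0)) := by
  have h1 : X * (S i - Y S i) - (S (i + 1) - Y S (i + 1)) - C (a i) * (S i - Y S i) -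
      C (32 ^ (i + 1)) * (S 0 - Y S 0) =
        ∑ l ∈ range i, C (32 ^ (i - l) * (a i - a l) + R i l - acc R i l) * S l := by
    have h2 : ∑ l ∈ range i, C (32 ^ (i - l) * (a i - a l) + R i l - acc R i l) * S l =
        C (a i) * Y S i + ∑ l ∈ range i, C (R i l) * S l -
          ∑ l ∈ range i, C (32 ^ (i - l) * a l + acc R i l) * S l := by
      rw [Y_eq, Finset.mul_sum, ← Finset.sum_add_distrib, ← Finset.sum_sub_distrib]
      refine Finset.sum_congr rfl fun l _ => ?_
      simp only [C_add, C_mul, C_sub]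
      ring
    rw [h2, h.s0, show Y S 0 = 0 from rfl]
    linear_combination h.rel i - h.X_mul_Y i
  rw [h1]
  exact (Cone.sum (T := fun l => S l - Y S l) (n := n) (i := i) i
    (fun l => (64 : ℝ) ^ (i - l) * (2 * 128 ^ l))
    (fun l => C (32 ^ (i - l) * (a i - a l) + R i l - acc R i l) * S l) fun l hl =>
      ((cone_S S n l (by omega)).smul (h.V_bounds i l hl).1).mono hl.le
        (mul_le_mul_of_nonneg_right (h.V_bounds i l hl).2 (by positivity))).mono le_rfl
    (weight_sum i)

theorem irreducible_chain (t : ℕ) : ∃ (n : ℕ) (a : ℕ → ℝ) (w : ℕ → ℕ → ℝ) (T : ℕ → ℝ[X]),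
    1 ≤ n ∧ a 0 = -t ∧ (∀ i, a i ≤ 0) ∧ (∀ i l, 0 ≤ w i l) ∧ (∀ i l, i < l → w i l = 0) ∧
    (∀ i, i < n → 1 ≤ w i 0) ∧
    (∀ i l, l ≤ i → i < n → w i l * 128 ^ l ≤ 34 * 128 ^ i) ∧ T 0 = 1 ∧
    (∀ i, i < n → X * T i = T (i + 1) + C (a i) * T i + ∑ l ∈ range n, C (w i l) * T l) ∧
    ∀ z : ℂ, aeval z (T n) = 0 → ‖z‖ < 128 := by
  obtain ⟨m, a, R, S, h⟩ := chain_exists t
  obtain ⟨n, hn, hz⟩ := h.final
  have h1 : ∀ i, ∃ w : ℕ → ℝ, (∀ l, 0 ≤ w l) ∧ (∀ l, i < l → w l = 0) ∧ (i < n → 1 ≤ w 0) ∧
      (∀ l, l ≤ i → i < n → w l * 128 ^ l ≤ 34 * 128 ^ i) ∧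
      (i < n → X * (S i - Y S i) = (S (i + 1) - Y S (i + 1)) + C (a i) * (S i - Y S i) +
        ∑ l ∈ range n, C (w l) * (S l - Y S l)) := by
    intro i
    by_cases hi : i < n
    · obtain ⟨w, w1, w2, w3, w4⟩ := h.row_split n i hi
      have h32 : (1 : ℝ) ≤ 32 ^ (i + 1) := one_le_pow₀ (by norm_num)
      refine ⟨fun l => w l + if l = 0 then 32 ^ (i + 1) else 0, fun l => ?_, fun l hl => ?_,
        fun _ => ?_, fun l hl _ => ?_, fun _ => ?_⟩
      · have := w1 l
        simp only []
        split_ifs <;> linarith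
      · simp only []
        rw [w2 l hl, if_neg (by omega), add_zero]
      · have := w1 0
        simp only [if_true]
        linarith
      · have h2 : w l * 128 ^ l ≤ ∑ l ∈ range n, w l * 128 ^ l :=
          Finset.single_le_sum (f := fun l => w l * 128 ^ l)
            (fun l _ => mul_nonneg (w1 l) (by positivity)) (Finset.mem_range.2 (by omega))
        have h6 : (32 : ℝ) ^ i ≤ 128 ^ i := pow_le_pow_left₀ (by norm_num) (by norm_num) i
        have h7 : (0 : ℝ) ≤ 128 ^ i := by positivity
        simp only []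
        split_ifs with h3
        · subst h3
          rw [pow_succ]
          simp only [pow_zero, mul_one] at h2 ⊢
          linarith
        · rw [add_zero]
          linarith
      · have h2 : ∑ l ∈ range n, C (w l + if l = 0 then 32 ^ (i + 1) else 0) * (S l - Y S l) =
            ∑ l ∈ range n, C (w l) * (S l - Y S l) + C (32 ^ (i + 1)) * (S 0 - Y S 0) := by
          simp only [C_add, add_mul, Finset.sum_add_distrib]
          congr 1
          rw [Finset.sum_eq_single 0]
          · simp
          · intro l _ hl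
            simp [hl]
          · intro h
            exact (h (Finset.mem_range.2 (by omega))).elim
        rw [h2]
        linear_combination w3
    · exact ⟨fun _ => 0, fun _ => le_rfl, fun _ _ => rfl, fun h => (hi h).elim,
        fun _ _ h => (hi h).elim, fun h => (hi h).elim⟩
  choose w w1 w2 w3 w4 w5 using h1
  exact ⟨n, a, w, fun l => S l - Y S l, hn, h.a0, h.a_nonpos, w1, w2, w3, w4,
    by simp [h.s0, Y], w5, hz⟩

/-- A diagonal scaling of the Hessenberg matrix with equal row and column sums, all bounded. -/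
theorem scaling (n : ℕ) (hn : 1 ≤ n) (w : ℕ → ℕ → ℝ) (hw0 : ∀ i l, 0 ≤ w i l)
    (hwz : ∀ i l, i < l → w i l = 0) (hw1 : ∀ i, i < n → 1 ≤ w i 0)
    (hw : ∀ i l, l ≤ i → i < n → w i l * 128 ^ l ≤ 34 * 128 ^ i) :
    ∃ d : ℕ → ℝ, (∀ i, 0 < d i) ∧
      (∀ k, k < n → ∑ i ∈ range n, ((if k = i + 1 then 1 else 0) + w i k) * d k / d i =
        ∑ j ∈ range n, ((if j = k + 1 then 1 else 0) + w k j) * d j / d k) ∧
      ∀ k, k < n → ∑ j ∈ range n, ((if j = k + 1 then 1 else 0) + w k j) * d j / d k ≤ 1330 := by
  set N : ℕ → ℕ → ℝ := fun i k => (if k = i + 1 then 1 else 0) + w i k with hN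
  have hN0 : ∀ i k, 0 ≤ N i k := fun i k => by
    have := hw0 i k
    simp only [hN]
    split_ifs <;> linarith
  have hB : 0 ≤ ∑ i : Fin n, ∑ k : Fin n, N i k :=
    Finset.sum_nonneg fun i _ => Finset.sum_nonneg fun k _ => hN0 i k
  obtain ⟨d', hd', hbal⟩ := balance (ι := Fin n) (fun i k => N i k) (fun i k => hN0 i k) ⟨0, hn⟩
    (n * ∑ i : Fin n, ∑ k : Fin n, N i k) (by positivity) (by
      intro x hx i
      set B := ∑ i : Fin n, ∑ k : Fin n, N i k
      have h1 : ∀ i k : Fin n, 1 ≤ N i k → x k - x i ≤ B := fun i k hik => by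
        have h2 : N i k * Real.exp (x k - x i) ≤ ∑ k : Fin n, N i k * Real.exp (x k - x i) :=
          Finset.single_le_sum (f := fun k : Fin n => N i k * Real.exp (x k - x i))
            (fun k _ => mul_nonneg (hN0 i k) (Real.exp_pos _).le) (Finset.mem_univ k)
        have h3 : ∑ k : Fin n, N i k * Real.exp (x k - x i) ≤
            ∑ i : Fin n, ∑ k : Fin n, N i k * Real.exp (x k - x i) :=
          Finset.single_le_sum (f := fun i : Fin n => ∑ k : Fin n, N i k * Real.exp (x k - x i))
            (fun i _ => Finset.sum_nonneg fun k _ => mul_nonneg (hN0 i k) (Real.exp_pos _).le)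
            (Finset.mem_univ i)
        have h4 := Real.add_one_le_exp (x k - x i)
        have h5 := mul_le_mul_of_nonneg_right hik (Real.exp_pos (x k - x i)).le
        linarith
      have h2 : ∀ j (hj : j < n), x ⟨j, hj⟩ - x ⟨0, hn⟩ ≤ j * B := by
        intro j
        induction j with
        | zero => intro _; simp
        | succ j ih =>
          intro hj
          have h3 := ih (by omega)
          have h4 := h1 ⟨j, by omega⟩ ⟨j + 1, hj⟩ (by
            have := hw0 j (j + 1)
            simp only [hN, if_true]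
            linarith)
          push_cast
          linarith
      have h3 := h1 i ⟨0, hn⟩ (by
        have := hw1 i i.2
        simp only [hN]
        split_ifs <;> linarith)
      have h4 := h2 i i.2
      have h5 : (i : ℝ) * B ≤ n * B :=
        mul_le_mul_of_nonneg_right (by exact_mod_cast i.2.le) hB
      have h6 : 1 * B ≤ n * B := mul_le_mul_of_nonneg_right (by exact_mod_cast hn) hB
      rw [abs_le]
      constructor
      · linarith
      · exact h4.trans h5)
  set d : ℕ → ℝ := fun i => if hi : i < n then d' ⟨i, hi⟩ else 1 with hd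
  have hdd : ∀ i : Fin n, d' i = d i := fun i => by simp [hd]
  have hd0 : ∀ i, 0 < d i := fun i => by
    simp only [hd]
    split_ifs
    · exact hd' _
    · exact one_pos
  have hb : ∀ (p : ℕ → Prop) [DecidablePred p],
      ∑ i ∈ range n, ∑ k ∈ range n, (if p i ∧ ¬ p k then N i k * d k / d i else 0) =
        ∑ i ∈ range n, ∑ k ∈ range n, (if ¬ p i ∧ p k then N i k * d k / d i else 0) := by
    intro p _
    have h1 := hbal fun i => p i
    simp only [hdd] at h1
    rw [← Fin.sum_univ_eq_sum_range
        (fun i => ∑ k ∈ range n, (if p i ∧ ¬ p k then N i k * d k / d i else 0)) n,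
      ← Fin.sum_univ_eq_sum_range
        (fun i => ∑ k ∈ range n, (if ¬ p i ∧ p k then N i k * d k / d i else 0)) n]
    simp only [← Fin.sum_univ_eq_sum_range
        (fun k => (if p _ ∧ ¬ p k then N _ k * d k / d _ else 0)) n,
      ← Fin.sum_univ_eq_sum_range
        (fun k => (if ¬ p _ ∧ p k then N _ k * d k / d _ else 0)) n]
    exact h1
  have hcut : ∀ k, k + 1 < n →
      d (k + 1) / d k = ∑ i ∈ Ico (k + 1) n, ∑ j ∈ range (k + 1), w i j * d j / d i := by
    intro k hk
    have h1 := hb fun i => k < i
    have h2 : ∑ i ∈ range n, ∑ j ∈ range n,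
        (if ¬ k < i ∧ k < j then N i j * d j / d i else 0) = d (k + 1) / d k := by
      rw [Finset.sum_eq_single k, Finset.sum_eq_single (k + 1)]
      · simp [hN, hwz]
      · intro j _ hj
        split_ifs with h
        · simp only [hN]
          rw [if_neg hj, hwz k j h.2]
          simp
        · rfl
      · intro h
        exact (h (Finset.mem_range.2 hk)).elim
      · intro i _ hi
        refine Finset.sum_eq_zero fun j _ => ?_
        split_ifs with h
        · simp only [hN]
          rw [if_neg (by omega), hwz i j (by omega)]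
          simp
        · rfl
      · intro h
        exact (h (Finset.mem_range.2 (by omega))).elim
    rw [← h2, ← h1, ← Finset.sum_range_add_sum_Ico _ hk.le, Finset.sum_eq_zero, zero_add]
    · refine Finset.sum_congr rfl fun i hi => ?_
      rw [Finset.mem_Ico] at hi
      rw [← Finset.sum_range_add_sum_Ico _ hk.le, Finset.sum_eq_zero (s := Ico (k + 1) n),
        add_zero]
      · refine Finset.sum_congr rfl fun j hj => ?_
        rw [Finset.mem_range] at hj
        rw [if_pos (by omega)]
        simp only [hN]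
        rw [if_neg (by omega), zero_add]
      · intro j hj
        rw [Finset.mem_Ico] at hj
        exact if_neg (by omega)
    · intro i hi
      rw [Finset.mem_range] at hi
      exact Finset.sum_eq_zero fun j _ => if_neg (by omega)
  have hflow := flow_bound n w d hd0 hw0 hw hcut
  have hg : ∀ i j, 0 ≤ w i j * d j / d i := fun i j => by
    have := hw0 i j
    have := hd0 i
    have := hd0 j
    positivity
  refine ⟨d, hd0, fun k hk => ?_, fun k hk => ?_⟩
  · have h1 := hb fun i => i = k
    have hk' := Finset.mem_range.2 hk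
    rw [Finset.sum_eq_single_of_mem k hk' fun i _ hi =>
        Finset.sum_eq_zero fun j _ => if_neg fun h => hi h.1,
      Finset.sum_congr rfl fun i _ => Finset.sum_eq_single_of_mem k hk' fun j _ hj =>
        if_neg fun h => hj h.2] at h1
    have h2 : ∀ f : ℕ → ℝ, ∑ j ∈ range n, f j =
        f k + ∑ j ∈ range n, if ¬ j = k then f j else 0 := fun f => by
      rw [← Finset.sum_erase_add _ _ hk', add_comm, ← Finset.sum_filter, Finset.filter_ne']
    rw [h2 fun i => N i k * d k / d i, h2 fun j => N k j * d j / d k]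
    simp only [true_and, and_true] at h1
    rw [h1]
  · have h1 : ∑ j ∈ range n, (if j = k + 1 then (1 : ℝ) else 0) * d j / d k ≤ 648 := by
      simp only [ite_mul, one_mul, zero_mul, ite_div, zero_div, Finset.sum_ite_eq']
      split_ifs with h
      · exact hflow k (Finset.mem_range.1 h)
      · norm_num
    have h2 : ∑ j ∈ range n, w k j * d j / d k =
        ∑ j ∈ range k, w k j * d j / d k + w k k := by
      rw [← Finset.sum_range_add_sum_Ico _ (by omega : k + 1 ≤ n), Finset.sum_range_succ,
        Finset.sum_eq_zero (s := Ico (k + 1) n), add_zero, mul_div_assoc, div_self (hd0 k).ne',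
        mul_one]
      intro j hj
      rw [Finset.mem_Ico] at hj
      rw [hwz k j (by omega)]
      simp
    have h3 : w k k ≤ 34 := le_of_mul_le_mul_right (hw k k le_rfl hk) (by positivity)
    have h4 : ∑ j ∈ range k, w k j * d j / d k ≤ 648 := by
      cases k with
      | zero => simp
      | succ k =>
        refine le_trans ?_ (hflow k hk)
        rw [hcut k hk]
        exact Finset.single_le_sum (f := fun i => ∑ j ∈ range (k + 1), w i j * d j / d i)
          (fun i _ => Finset.sum_nonneg fun j _ => hg i j) (Finset.mem_Ico.2 ⟨le_rfl, hk⟩)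
    simp only [add_mul, add_div, Finset.sum_add_distrib]
    linarith

end Pool.Agent.Lib.MP_7b644b_an
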