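import Mathlib

set_option autoImplicit false

namespace Pool.Agent.Lib.MP_7b644b_an

open Polynomial Finset

/-- The weighted coefficient sums of the power series `f` at radius `s` are bounded by `b`. -/
def NB {𝕜 : Type*} [NormedField 𝕜] (s : ℝ) (f : PowerSeries 𝕜) (b : ℝ) : Prop :=
  ∀ K : ℕ, ∑ k ∈ range K, ‖PowerSeries.coeff k f‖ * s ^ k ≤ b

section nb
variable {𝕜 : Type*} [NormedField 𝕜] {s : ℝ}

theorem NB.nonneg {f : PowerSeries 𝕜} {b : ℝ} (h : NB s f b) : 0 ≤ b := by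
  simpa using h 0

theorem NB.mul (hs : 0 ≤ s) {f g : PowerSeries 𝕜} {a b : ℝ} (hf : NB s f a) (hg : NB s g b) :
    NB s (f * g) (a * b) := by
  intro K
  have h1 : ∀ k, ‖PowerSeries.coeff k (f * g)‖ * s ^ k ≤
      ∑ i ∈ range (k + 1), (‖PowerSeries.coeff i f‖ * s ^ i) *
        (‖PowerSeries.coeff (k - i) g‖ * s ^ (k - i)) := by
    intro k
    rw [PowerSeries.coeff_mul, Finset.Nat.sum_antidiagonal_eq_sum_range_succ_mk]
    refine le_trans (mul_le_mul_of_nonneg_right (norm_sum_le _ _) (pow_nonneg hs k)) ?_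
    rw [Finset.sum_mul]
    refine Finset.sum_le_sum fun i hi => le_of_eq ?_
    have hik : i ≤ k := Nat.lt_succ_iff.1 (Finset.mem_range.1 hi)
    have : s ^ k = s ^ i * s ^ (k - i) := by rw [← pow_add]; congr 1; omega
    rw [norm_mul, this]; ring
  refine le_trans (Finset.sum_le_sum fun k _ => h1 k) ?_
  rw [Finset.sum_range_diag_flip K (fun i j => (‖PowerSeries.coeff i f‖ * s ^ i) *
        (‖PowerSeries.coeff j g‖ * s ^ j))]
  calc ∑ i ∈ range K, ∑ j ∈ range (K - i), (‖PowerSeries.coeff i f‖ * s ^ i) *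
        (‖PowerSeries.coeff j g‖ * s ^ j)
      ≤ ∑ i ∈ range K, (‖PowerSeries.coeff i f‖ * s ^ i) * b := by
        refine Finset.sum_le_sum fun i _ => ?_
        rw [← Finset.mul_sum]
        exact mul_le_mul_of_nonneg_left (hg _) (by positivity)
    _ ≤ a * b := by
        rw [← Finset.sum_mul]
        exact mul_le_mul_of_nonneg_right (hf K) hg.nonneg

theorem NB.one : NB s (1 : PowerSeries 𝕜) 1 := by
  intro K
  cases K with
  | zero => simp
  | succ K =>
    rw [Finset.sum_range_succ']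
    simp [PowerSeries.coeff_one]

theorem NB.pow (hs : 0 ≤ s) {f : PowerSeries 𝕜} {a : ℝ} (hf : NB s f a) (n : ℕ) :
    NB s (f ^ n) (a ^ n) := by
  induction n with
  | zero => simpa using NB.one
  | succ n ih => rw [pow_succ, pow_succ]; exact ih.mul hs hf

theorem NB.coeff_le (hs : 0 ≤ s) {f : PowerSeries 𝕜} {a : ℝ} (hf : NB s f a) (k : ℕ) :
    ‖PowerSeries.coeff k f‖ * s ^ k ≤ a := by
  refine le_trans ?_ (hf (k + 1))
  rw [Finset.sum_range_succ]
  have : 0 ≤ ∑ i ∈ range k, ‖PowerSeries.coeff i f‖ * s ^ i :=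
    Finset.sum_nonneg fun i _ => by positivity
  linarith

theorem NB.of_le (hs : 0 ≤ s) {f g : PowerSeries 𝕜} {a : ℝ} (hf : NB s f a)
    (h : ∀ k, ‖PowerSeries.coeff k g‖ ≤ ‖PowerSeries.coeff k f‖) : NB s g a := fun K =>
  le_trans (Finset.sum_le_sum fun k _ =>
    mul_le_mul_of_nonneg_right (h k) (pow_nonneg hs k)) (hf K)

theorem NB.radius {t : ℝ} (ht : 0 ≤ t) (hts : t ≤ s) {f : PowerSeries 𝕜} {a : ℝ}
    (hf : NB s f a) : NB t f a := fun K =>
  le_trans (Finset.sum_le_sum fun k _ =>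
    mul_le_mul_of_nonneg_left (pow_le_pow_left₀ ht hts k) (norm_nonneg _)) (hf K)

theorem NB.poly (hs : 0 ≤ s) (p : 𝕜[X]) : ∃ b, NB s (p : PowerSeries 𝕜) b := by
  refine ⟨∑ k ∈ range (p.natDegree + 1), ‖p.coeff k‖ * s ^ k, fun K => ?_⟩
  simp only [Polynomial.coeff_coe]
  refine le_trans (Finset.sum_le_sum_of_subset_of_nonneg
    (Finset.range_mono (Nat.le_add_left K (p.natDegree + 1))) fun i _ _ => by positivity) ?_
  refine le_of_eq (Finset.sum_subset (Finset.range_mono (Nat.le_add_right _ K)) ?_).symm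
  intro i _ hi
  rw [coeff_eq_zero_of_natDegree_lt (by simpa using hi)]
  simp

theorem geom_half (K : ℕ) : ∑ k ∈ range K, (1 / 2 : ℝ) ^ k ≤ 2 := by
  have : ∀ K : ℕ, ∑ k ∈ range K, (1 / 2 : ℝ) ^ k = 2 - 2 * (1 / 2) ^ K := by
    intro K
    induction K with
    | zero => simp
    | succ K ih => rw [Finset.sum_range_succ, ih]; ring
  rw [this]
  have : (0 : ℝ) ≤ (1 / 2) ^ K := by positivity
  linarith

end nb

/-- Inverse series of the reversal of a product of linear factors with roots of norm at most 2. -/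
theorem inv_multiset (s : Multiset ℂ) (hs : ∀ z ∈ s, ‖z‖ ≤ 2) :
    ∃ (ι : PowerSeries ℂ) (b : ℝ),
      ((reflect s.card (s.map fun a => X - C a).prod : ℂ[X]) : PowerSeries ℂ) * ι = 1 ∧
      NB (1 / 4) ι b := by
  induction s using Multiset.induction_on with
  | empty => exact ⟨1, 1, by simp, NB.one⟩
  | cons z s ih =>
    obtain ⟨ι, b, h1, h2⟩ := ih fun w hw => hs w (Multiset.mem_cons_of_mem hw)
    have hz : ‖z‖ ≤ 2 := hs z (Multiset.mem_cons_self z s)
    refine ⟨PowerSeries.mk (fun k => z ^ k) * ι, 2 * b, ?_, ?_⟩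
    · rw [Multiset.map_cons, Multiset.prod_cons, Multiset.card_cons, add_comm,
        reflect_mul _ _ (natDegree_X_sub_C_le z)
          (natDegree_multiset_prod_X_sub_C_eq_card s).le, Polynomial.coe_mul]
      have h3 : ((reflect 1 (X - C z) : ℂ[X]) : PowerSeries ℂ) *
          PowerSeries.mk (fun k => z ^ k) = 1 := by
        rw [reflect_sub, reflect_one_X, reflect_C, pow_one]
        have := PowerSeries.mk_one_mul_one_sub_eq_one ℂ
        ext k
        rw [Polynomial.coe_sub, Polynomial.coe_mul, Polynomial.coe_one, Polynomial.coe_C,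
          Polynomial.coe_X, sub_mul, one_mul, mul_assoc, map_sub, PowerSeries.coeff_C_mul]
        cases k with
        | zero => simp
        | succ k => simp [PowerSeries.coeff_succ_X_mul, PowerSeries.coeff_one, pow_succ']
      calc _ = (((reflect 1 (X - C z) : ℂ[X]) : PowerSeries ℂ) *
          PowerSeries.mk (fun k => z ^ k)) *
          (((reflect s.card (s.map fun a => X - C a).prod : ℂ[X]) : PowerSeries ℂ) * ι) := by ring
        _ = 1 := by rw [h3, h1, one_mul]
    · refine NB.mul (by norm_num) (fun K => le_trans (Finset.sum_le_sum fun k _ => ?_)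
        (geom_half K)) h2
      rw [PowerSeries.coeff_mk, norm_pow, ← mul_pow]
      exact pow_le_pow_left₀ (by positivity) (by linarith) k

theorem eval_multiset (s : Multiset ℂ) (hs : ∀ z ∈ s, ‖z‖ ≤ 1) (x : ℂ) (hx : 2 ≤ ‖x‖) :
    (‖x‖ / 2) ^ s.card ≤ ‖eval x (s.map fun a => X - C a).prod‖ := by
  induction s using Multiset.induction_on with
  | empty => simp
  | cons z s ih =>
    have h1 := ih fun w hw => hs w (Multiset.mem_cons_of_mem hw)
    have hz : ‖z‖ ≤ 1 := hs z (Multiset.mem_cons_self z s)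
    rw [Multiset.map_cons, Multiset.prod_cons, Multiset.card_cons, eval_mul, norm_mul, pow_succ']
    have h2 : ‖x‖ / 2 ≤ ‖eval x (X - C z)‖ := by
      rw [eval_sub, eval_X, eval_C]
      have := norm_sub_norm_le x z
      linarith
    exact mul_le_mul h2 h1 (by positivity) (norm_nonneg _)

theorem map_eq_prod (g : ℝ[X]) (hg : g.Monic) (ρ : ℝ) (hr : ∀ z : ℂ, aeval z g = 0 → ‖z‖ ≤ ρ) :
    ∃ s : Multiset ℂ, (∀ z ∈ s, ‖z‖ ≤ ρ) ∧ s.card = g.natDegree ∧
      g.map (algebraMap ℝ ℂ) = (s.map fun a => X - C a).prod := by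
  have hm : (g.map (algebraMap ℝ ℂ)).Monic := hg.map _
  have h := (IsAlgClosed.splits (g.map (algebraMap ℝ ℂ))).eq_prod_roots_of_monic hm
  refine ⟨(g.map (algebraMap ℝ ℂ)).roots, fun z hz => hr z ?_, ?_, h⟩
  · have := (mem_roots hm.ne_zero).1 hz
    rwa [IsRoot.def, eval_map_algebraMap] at this
  · rw [← natDegree_multiset_prod_X_sub_C_eq_card, ← h, hg.natDegree_map]

theorem aeval_lower (g : ℝ[X]) (hg : g.Monic) (hr : ∀ z : ℂ, aeval z g = 0 → ‖z‖ ≤ 1)
    (x : ℂ) (hx : 2 ≤ ‖x‖) : (‖x‖ / 2) ^ g.natDegree ≤ ‖aeval x g‖ := by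
  obtain ⟨s, h1, h2, h3⟩ := map_eq_prod g hg 1 hr
  rw [← eval_map_algebraMap, h3, ← h2]
  exact eval_multiset s h1 x hx

theorem inv_real (g : ℝ[X]) (hg : g.Monic) (hr : ∀ z : ℂ, aeval z g = 0 → ‖z‖ ≤ 2) :
    ∃ (ι : PowerSeries ℝ) (b : ℝ),
      ((reflect g.natDegree g : ℝ[X]) : PowerSeries ℝ) * ι = 1 ∧ NB (1 / 4) ι b := by
  obtain ⟨s, h1, h2, h3⟩ := map_eq_prod g hg 2 hr
  obtain ⟨κ, b, h4, h5⟩ := inv_multiset s h1
  have h0 : PowerSeries.constantCoeff ((reflect g.natDegree g : ℝ[X]) : PowerSeries ℝ) ≠ 0 := by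
    rw [Polynomial.constantCoeff_coe, coeff_reflect, revAt_le (Nat.zero_le _), Nat.sub_zero]
    rw [show g.coeff g.natDegree = 1 from hg]
    exact one_ne_zero
  have h6 := PowerSeries.mul_inv_cancel _ h0
  refine ⟨_, b, h6, ?_⟩
  have h7 := congrArg (PowerSeries.map (algebraMap ℝ ℂ)) h6
  rw [map_mul, map_one, ← Polynomial.polynomial_map_coe, ← reflect_map, h3, ← h2] at h7
  have h8 : PowerSeries.map (algebraMap ℝ ℂ)
      ((reflect s.card g : ℝ[X]) : PowerSeries ℝ)⁻¹ = κ := by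
    have := congrArg (· * κ) h7
    simp only [one_mul] at this
    rw [← this, mul_right_comm, h4, one_mul]
  intro K
  refine le_trans (le_of_eq (Finset.sum_congr rfl fun k _ => ?_)) (h5 K)
  rw [← h8, PowerSeries.coeff_map, ← h2]
  simp

/-- Coefficients of the solution of `P w' = ℓ w`, `w 0 = 1`. -/
noncomputable def rootSeq (ℓ : ℕ → ℝ) (P : ℝ) : ℕ → ℝ
  | 0 => 1
  | k + 1 => (1 / (P * (k + 1))) * ∑ i ∈ range (k + 1), ℓ i * rootSeq ℓ P (k - i)
decreasing_by omega

theorem rootSeq_bound (ℓ : ℕ → ℝ) (P c : ℝ) (hc : 0 ≤ c) (hP : c ≤ P) (hP0 : 0 < P)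
    (hℓ : ∀ k, |ℓ k| ≤ 4 * c * 4 ^ k) (k : ℕ) : |rootSeq ℓ P (k + 1)| ≤ c / P * 4 ^ (k + 1) := by
  induction k using Nat.strong_induction_on with
  | _ k ih =>
    rw [rootSeq, abs_mul, abs_of_pos (by positivity : (0 : ℝ) < 1 / (P * (k + 1)))]
    have hcP : c / P ≤ 1 := (div_le_one hP0).2 hP
    have h1 : ∀ i ∈ range (k + 1), |ℓ i * rootSeq ℓ P (k - i)| ≤ 4 * c * 4 ^ k := by
      intro i hi
      have hik : i ≤ k := Nat.lt_succ_iff.1 (Finset.mem_range.1 hi)
      have h2 : |rootSeq ℓ P (k - i)| ≤ 4 ^ (k - i) := by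
        rcases Nat.eq_zero_or_pos (k - i) with h | h
        · rw [h, rootSeq]; simp
        · obtain ⟨j, hj⟩ : ∃ j, k - i = j + 1 := ⟨k - i - 1, by omega⟩
          rw [hj]
          refine le_trans (ih j (by omega)) ?_
          exact mul_le_of_le_one_left (by positivity) hcP
      rw [abs_mul]
      calc |ℓ i| * |rootSeq ℓ P (k - i)| ≤ (4 * c * 4 ^ i) * 4 ^ (k - i) :=
            mul_le_mul (hℓ i) h2 (abs_nonneg _) (by positivity)
        _ = 4 * c * 4 ^ k := by rw [mul_assoc, ← pow_add]; congr 2; omega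
    have h3 : |∑ i ∈ range (k + 1), ℓ i * rootSeq ℓ P (k - i)| ≤ (k + 1) * (4 * c * 4 ^ k) := by
      refine le_trans (Finset.abs_sum_le_sum_abs _ _) ?_
      refine le_trans (Finset.sum_le_card_nsmul _ _ _ h1) ?_
      simp
    refine le_trans (mul_le_mul_of_nonneg_left h3 (by positivity)) (le_of_eq ?_)
    field_simp
    ring

theorem rootSeq_pow (G ι : PowerSeries ℝ) (h : G * ι = 1) (h0 : PowerSeries.constantCoeff ι = 1)
    (P : ℕ) (hP : 0 < P) :
    PowerSeries.mk (rootSeq (fun k => PowerSeries.coeff k (PowerSeries.derivative ℝ G * ι)) P) ^ P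
      * ι = 1 := by
  set ℓ := PowerSeries.derivative ℝ G * ι with hℓ
  set W := PowerSeries.mk (rootSeq (fun k => PowerSeries.coeff k ℓ) P) with hW
  have hP' : (P : ℝ) ≠ 0 := by positivity
  have h1 : (P : PowerSeries ℝ) * PowerSeries.derivative ℝ W = ℓ * W := by
    ext k
    rw [← map_natCast (PowerSeries.C (R := ℝ)) P, PowerSeries.coeff_C_mul,
      PowerSeries.coeff_derivative, PowerSeries.coeff_mul,
      Finset.Nat.sum_antidiagonal_eq_sum_range_succ_mk, hW]
    simp only [PowerSeries.coeff_mk]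
    rw [rootSeq]
    field_simp
  have h2 : PowerSeries.derivative ℝ ι = -(ℓ * ι) := by
    have h3 := congrArg (PowerSeries.derivative ℝ) h
    rw [Derivation.leibniz, PowerSeries.derivative_one, smul_eq_mul, smul_eq_mul] at h3
    have h4 : ι * (G * PowerSeries.derivative ℝ ι + ι * PowerSeries.derivative ℝ G) = 0 := by
      rw [h3, mul_zero]
    rw [hℓ]
    linear_combination h4 - PowerSeries.derivative ℝ ι * h
  refine PowerSeries.derivative.ext ?_ ?_
  · rw [Derivation.leibniz, PowerSeries.derivative_one, smul_eq_mul, smul_eq_mul,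
      PowerSeries.derivative_pow, h2]
    obtain ⟨Q, rfl⟩ : ∃ Q, P = Q + 1 := ⟨P - 1, by omega⟩
    rw [Nat.add_sub_cancel]
    linear_combination ι * W ^ Q * h1
  · rw [map_mul, map_pow, h0, hW, PowerSeries.constantCoeff_mk, rootSeq]
    simp

end Pool.Agent.Lib.MP_7b644b_an
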