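import Pool.Agent.Lib.MP_7b644b_an.Chain

set_option autoImplicit false

namespace Pool.Agent.Lib.MP_7b644b_an

open Polynomial Finset

/-- The Toeplitz combination `∑ l < i, 32 ^ (i - l) * S l`. -/
noncomputable def Y (S : ℕ → ℝ[X]) : ℕ → ℝ[X]
  | 0 => 0
  | i + 1 => C 32 * (Y S i + S i)

/-- The accumulated feedback `∑ l < j < i, 32 ^ (i - j) * R j l`. -/
noncomputable def acc (R : ℕ → ℕ → ℝ) : ℕ → ℕ → ℝ
  | 0, _ => 0
  | i + 1, l => 32 * (acc R i l + if l < i then R i l else 0)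

theorem acc_zero (R : ℕ → ℕ → ℝ) (i l : ℕ) (h : ∀ j, l < j → j < i → R j l = 0) :
    acc R i l = 0 := by
  induction i with
  | zero => rfl
  | succ i ih =>
    rw [acc, ih fun j h1 h2 => h j h1 (by omega)]
    split_ifs with h1
    · rw [h i h1 (by omega)]; simp
    · simp

theorem Y_eq (S : ℕ → ℝ[X]) (i : ℕ) : Y S i = ∑ l ∈ range i, C (32 ^ (i - l)) * S l := by
  induction i with
  | zero => rfl
  | succ i ih =>
    rw [Y, ih, Finset.sum_range_succ, mul_add, Finset.mul_sum, Nat.add_sub_cancel_left, pow_one]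
    congr 1
    refine Finset.sum_congr rfl fun l hl => ?_
    have hl' := Finset.mem_range.1 hl
    rw [← mul_assoc, ← C_mul, show i + 1 - l = i - l + 1 by omega, pow_succ']

/-- `p` is a nonnegative combination of `T 0, ..., T i` of weight at most `b`. -/
def Cone (T : ℕ → ℝ[X]) (n i : ℕ) (b : ℝ) (p : ℝ[X]) : Prop :=
  ∃ w : ℕ → ℝ, (∀ l, 0 ≤ w l) ∧ (∀ l, i < l → w l = 0) ∧
    p = ∑ l ∈ range n, C (w l) * T l ∧ ∑ l ∈ range n, w l * 128 ^ l ≤ b

section cone
variable {T : ℕ → ℝ[X]} {n i : ℕ}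

theorem Cone.zero : Cone T n i 0 0 := ⟨fun _ => 0, fun _ => le_rfl, fun _ _ => rfl, by simp, by simp⟩

theorem Cone.add {b c : ℝ} {p q : ℝ[X]} (hp : Cone T n i b p) (hq : Cone T n i c q) :
    Cone T n i (b + c) (p + q) := by
  obtain ⟨v, v1, v2, v3, v4⟩ := hp
  obtain ⟨w, w1, w2, w3, w4⟩ := hq
  refine ⟨fun l => v l + w l, fun l => add_nonneg (v1 l) (w1 l),
    fun l hl => by simp [v2 l hl, w2 l hl], ?_, ?_⟩
  · simp only [C_add, add_mul, Finset.sum_add_distrib]
    rw [← v3, ← w3]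
  · simp only [add_mul, Finset.sum_add_distrib]
    linarith

theorem Cone.smul {b c : ℝ} {p : ℝ[X]} (hc : 0 ≤ c) (hp : Cone T n i b p) :
    Cone T n i (c * b) (C c * p) := by
  obtain ⟨v, v1, v2, v3, v4⟩ := hp
  refine ⟨fun l => c * v l, fun l => mul_nonneg hc (v1 l),
    fun l hl => by simp [v2 l hl], ?_, ?_⟩
  · simp only [C_mul, mul_assoc, ← Finset.mul_sum]
    rw [← v3]
  · simp only [mul_assoc, ← Finset.mul_sum]
    exact mul_le_mul_of_nonneg_left v4 hc

theorem Cone.mono {j : ℕ} {b c : ℝ} {p : ℝ[X]} (hp : Cone T n i b p) (hij : i ≤ j) (hbc : b ≤ c) :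
    Cone T n j c p := by
  obtain ⟨v, v1, v2, v3, v4⟩ := hp
  exact ⟨v, v1, fun l hl => v2 l (by omega), v3, v4.trans hbc⟩

theorem Cone.basis (hi : i < n) : Cone T n i (128 ^ i) (T i) := by
  refine ⟨fun l => if l = i then 1 else 0, fun l => by simp only []; split_ifs <;> norm_num,
    fun l hl => if_neg (by omega), ?_, ?_⟩
  · rw [Finset.sum_eq_single i]
    · simp
    · intro l _ hl
      simp [hl]
    · intro h
      exact (h (Finset.mem_range.2 hi)).elim
  · simp [hi]

theorem Cone.sum (k : ℕ) (b : ℕ → ℝ) (p : ℕ → ℝ[X]) (h : ∀ l, l < k → Cone T n i (b l) (p l)) :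
    Cone T n i (∑ l ∈ range k, b l) (∑ l ∈ range k, p l) := by
  induction k with
  | zero => simpa using Cone.zero
  | succ k ih =>
    rw [Finset.sum_range_succ, Finset.sum_range_succ]
    exact (ih fun l hl => h l (by omega)).add (h k (by omega))

end cone

theorem cone_Y (S : ℕ → ℝ[X]) (n i : ℕ) (hi : i ≤ n) :
    Cone (fun l => S l - Y S l) n i (128 ^ i / 2) (Y S i) := by
  induction i with
  | zero => exact Cone.zero.mono le_rfl (by positivity)
  | succ i ih =>
    have h1 := ih (by omega)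
    have h2 := ((h1.add h1).add (Cone.basis (T := fun l => S l - Y S l) (by omega : i < n))).smul
      (by norm_num : (0 : ℝ) ≤ 32)
    have h3 : Y S (i + 1) = C 32 * (Y S i + Y S i + (S i - Y S i)) := by rw [Y]; ring
    rw [h3]
    refine h2.mono (by omega) (le_of_eq ?_)
    ring

theorem cone_S (S : ℕ → ℝ[X]) (n i : ℕ) (hi : i < n) :
    Cone (fun l => S l - Y S l) n i (2 * 128 ^ i) (S i) := by
  have h := (cone_Y S n i hi.le).add (Cone.basis (T := fun l => S l - Y S l) hi)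
  rw [add_sub_cancel] at h
  refine h.mono le_rfl ?_
  have : (0 : ℝ) ≤ 128 ^ i := by positivity
  linarith

theorem weight_sum (i : ℕ) : ∑ l ∈ range i, (64 : ℝ) ^ (i - l) * (2 * 128 ^ l) ≤ 2 * 128 ^ i := by
  induction i with
  | zero => simp
  | succ i ih =>
    rw [Finset.sum_range_succ, Nat.add_sub_cancel_left,
      Finset.sum_congr rfl (g := fun l => 64 * ((64 : ℝ) ^ (i - l) * (2 * 128 ^ l))) fun l hl => by
        have hl' := Finset.mem_range.1 hl
        rw [show i + 1 - l = i - l + 1 by omega]; ring, ← Finset.mul_sum, pow_succ (128 : ℝ) i]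
    linarith

section chain
variable {t m : ℕ} {a : ℕ → ℝ} {R : ℕ → ℕ → ℝ} {S : ℕ → ℝ[X]}

theorem Chain.acc_le (h : Chain t m a R S) (i l : ℕ) :
    |acc R i l| ≤ 32 ^ (i - l) - 16 ^ (i - l) := by
  induction i with
  | zero => simp [acc]
  | succ i ih =>
    by_cases hl : l < i
    · rw [acc, if_pos hl, abs_mul, abs_of_pos (by norm_num : (0 : ℝ) < 32)]
      have h1 := h.Rb i l hl
      have h2 := abs_add_le (acc R i l) (R i l)
      rw [show i + 1 - l = i - l + 1 by omega, pow_succ] at h1 ⊢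
      rw [pow_succ]
      linarith
    · rw [acc_zero R (i + 1) l fun j h1 h2 => by omega, abs_zero, sub_nonneg]
      exact pow_le_pow_left₀ (by norm_num) (by norm_num) _

theorem Chain.a_sub_le (h : Chain t m a R S) (l k : ℕ) : a (l + k) ≤ a l + k := by
  induction k with
  | zero => simp
  | succ k ih =>
    have := h.step (l + k)
    rw [← add_assoc]
    push_cast
    linarith

theorem Chain.X_mul_Y (h : Chain t m a R S) (i : ℕ) :
    X * Y S i = Y S (i + 1) - C (32 ^ (i + 1)) +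
      ∑ l ∈ range i, C (32 ^ (i - l) * a l + acc R i l) * S l := by
  induction i with
  | zero => simp [Y, h.s0]
  | succ i ih =>
    have h1 : ∑ l ∈ range (i + 1), C (32 ^ (i + 1 - l) * a l + acc R (i + 1) l) * S l =
        C 32 * (∑ l ∈ range i, C (32 ^ (i - l) * a l + acc R i l) * S l + C (a i) * S i +
          ∑ l ∈ range i, C (R i l) * S l) := by
      rw [Finset.sum_range_succ, acc_zero R (i + 1) i fun j h1 h2 => by omega,
        Nat.add_sub_cancel_left, add_right_comm, ← Finset.sum_add_distrib, mul_add,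
        Finset.mul_sum]
      congr 1
      · refine Finset.sum_congr rfl fun l hl => ?_
        have hl' := Finset.mem_range.1 hl
        rw [acc, if_pos hl', show i + 1 - l = i - l + 1 by omega, pow_succ]
        simp only [C_add, C_mul]
        ring
      · rw [pow_one, add_zero, C_mul]; ring
    have h2 : Y S (i + 1) = C 32 * (Y S i + S i) := by rw [Y]
    have h3 : Y S (i + 1 + 1) = C 32 * (Y S (i + 1) + S (i + 1)) := by rw [Y]
    rw [h1, h3, pow_succ (32 : ℝ) (i + 1), C_mul]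
    linear_combination C 32 * ih + C 32 * h.rel i + X * h2

theorem Chain.V_bounds (h : Chain t m a R S) (i l : ℕ) (hl : l < i) :
    0 ≤ 32 ^ (i - l) * (a i - a l) + R i l - acc R i l ∧
      32 ^ (i - l) * (a i - a l) + R i l - acc R i l ≤ 64 ^ (i - l) := by
  have h1 := abs_le.1 (h.acc_le i l)
  have h2 := abs_le.1 (h.Rb i l hl)
  rw [show i + 1 - l = i - l + 1 by omega, pow_succ] at h2
  have h3 : (0 : ℝ) ≤ 16 ^ (i - l) := by positivity
  have h4 : (0 : ℝ) ≤ 32 ^ (i - l) := by positivity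
  constructor
  · by_cases hc : a l + 1 ≤ a i
    · have := mul_le_mul_of_nonneg_left (by linarith : 1 ≤ a i - a l) h4
      linarith
    · have hz : ∀ j, l < j → j ≤ i → R j l = 0 := fun j h5 h6 => by
        by_contra h7
        have := h.Ra j l h5 h7
        have := h.a_mono h6
        exact hc (by linarith)
      rw [hz i hl le_rfl, acc_zero R i l fun j h5 h6 => hz j h5 h6.le]
      have := mul_nonneg h4 (sub_nonneg.2 (h.a_mono hl.le))
      linarith
  · have h5 := h.a_sub_le l (i - l)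
    rw [show l + (i - l) = i by omega] at h5
    have h6 : ((i - l : ℕ) : ℝ) + 1 ≤ 2 ^ (i - l) := by
      exact_mod_cast Nat.succ_le_of_lt (Nat.lt_two_pow_self (n := i - l))
    have h7 : (64 : ℝ) ^ (i - l) = 32 ^ (i - l) * 2 ^ (i - l) := by rw [← mul_pow]; norm_num
    have h8 := mul_le_mul_of_nonneg_left (by linarith : a i - a l + 1 ≤ 2 ^ (i - l)) h4
    rw [h7]
    linarith

theorem Chain.row (h : Chain t m a R S) (n i : ℕ) (hi : i < n) :
    Cone (fun l => S l - Y S l) n i (34 * 128 ^ i)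
      (X * (S i - Y S i) - (S (i + 1) - Y S (i + 1)) - C (a i) * (S i - Y S i)) := by
  have h1 : X * (S i - Y S i) - (S (i + 1) - Y S (i + 1)) - C (a i) * (S i - Y S i) =
      C (32 ^ (i + 1)) * (S 0 - Y S 0) +
        ∑ l ∈ range i, C (32 ^ (i - l) * (a i - a l) + R i l - acc R i l) * S l := by
    have h2 : ∑ l ∈ range i, C (32 ^ (i - l) * (a i - a l) + R i l - acc R i l) * S l =
        C (a i) * Y S i + ∑ l ∈ range i, C (R i l) * S l -
          ∑ l ∈ range i, C (32 ^ (i - l) * a l + acc R i l) * S l := by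
      rw [Y_eq, Finset.mul_sum, ← Finset.sum_add_distrib, ← Finset.sum_sub_distrib]
      refine Finset.sum_congr rfl fun l _ => ?_
      simp only [C_add, C_mul, C_sub]
      ring
    rw [h2, h.s0, show Y S 0 = 0 from rfl]
    linear_combination h.rel i - h.X_mul_Y i
  rw [h1]
  have h3 := (Cone.basis (T := fun l => S l - Y S l) (by omega : 0 < n)).smul
    (by positivity : (0 : ℝ) ≤ 32 ^ (i + 1))
  have h4 := Cone.sum (T := fun l => S l - Y S l) (n := n) (i := i) i
    (fun l => (64 : ℝ) ^ (i - l) * (2 * 128 ^ l))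
    (fun l => C (32 ^ (i - l) * (a i - a l) + R i l - acc R i l) * S l) fun l hl =>
      ((cone_S S n l (by omega)).smul (h.V_bounds i l hl).1).mono hl.le
        (mul_le_mul_of_nonneg_right (h.V_bounds i l hl).2 (by positivity))
  refine ((h3.mono (Nat.zero_le i) le_rfl).add h4).mono le_rfl ?_
  have h5 := weight_sum i
  have h6 : (32 : ℝ) ^ i ≤ 128 ^ i := pow_le_pow_left₀ (by norm_num) (by norm_num) i
  rw [pow_succ]
  linarith

theorem Chain.natDegree_Y (h : Chain t m a R S) (i : ℕ) : (Y S i).natDegree ≤ i := by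
  induction i with
  | zero => simp [Y]
  | succ i ih =>
    rw [Y]
    refine le_trans (natDegree_C_mul_le _ _) (le_trans (natDegree_add_le _ _) (max_le ?_ ?_))
    · omega
    · rw [(h.monic i).2]; omega

theorem Chain.final (h : Chain t m a R S) :
    ∃ n, 1 ≤ n ∧ ∀ z : ℂ, aeval z (S n - Y S n) = 0 → ‖z‖ < 128 := by
  set D : ℝ := (∑ j ∈ range (m + 1), |(Y S m).coeff j|) * 2 ^ m with hD
  have hD0 : 0 ≤ D := by positivity
  have hS : ∀ k, S (m + k + 1) = X * S (m + k) := fun k => by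
    rw [h.rel, h.az _ (by omega), Finset.sum_eq_zero fun l _ => by rw [h.Rz _ l (by omega)]; simp]
    simp
  have key : ∀ z : ℂ, 128 ≤ ‖z‖ → ∀ k, 0 < ‖aeval z (S (m + k))‖ ∧
      ‖aeval z (Y S (m + k))‖ ≤ (1 / 3 + D / 4 ^ k) * ‖aeval z (S (m + k))‖ := by
    intro z hz k
    induction k with
    | zero =>
      have h1 := aeval_lower (S m) (h.monic m).1 h.roots z (by linarith)
      rw [(h.monic m).2] at h1
      have h2 : 0 < (‖z‖ / 2) ^ m := by positivity
      refine ⟨by simpa using h2.trans_le h1, ?_⟩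
      have h3 : ‖aeval z (Y S m)‖ ≤ (∑ j ∈ range (m + 1), |(Y S m).coeff j|) * ‖z‖ ^ m := by
        rw [aeval_eq_sum_range' (Nat.lt_succ_of_le (h.natDegree_Y m)), Finset.sum_mul]
        refine le_trans (norm_sum_le _ _) (Finset.sum_le_sum fun j hj => ?_)
        rw [norm_smul, norm_pow, Real.norm_eq_abs]
        exact mul_le_mul_of_nonneg_left (pow_le_pow_right₀ (by linarith)
          (Nat.lt_succ_iff.1 (Finset.mem_range.1 hj))) (abs_nonneg _)
      have h4 : (∑ j ∈ range (m + 1), |(Y S m).coeff j|) * ‖z‖ ^ m = D * (‖z‖ / 2) ^ m := by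
        rw [hD, mul_assoc, ← mul_pow]; congr 2; ring
      have h5 := mul_le_mul_of_nonneg_left h1 hD0
      simp only [add_zero, pow_zero, div_one]
      nlinarith
    | succ k ih =>
      obtain ⟨h1, h2⟩ := ih
      rw [← add_assoc, hS, Y, map_mul, map_mul, map_add, aeval_X, aeval_C, norm_mul, norm_mul]
      refine ⟨by positivity, ?_⟩
      have h3 := norm_add_le (aeval z (Y S (m + k))) (aeval z (S (m + k)))
      have h4 : ‖algebraMap ℝ ℂ 32‖ = 32 := by simp
      have h5 : 0 ≤ D / 4 ^ k := by positivity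
      have h6 : D / 4 ^ (k + 1) = D / 4 ^ k / 4 := by rw [pow_succ, div_div]
      have h7 := mul_le_mul_of_nonneg_left (mul_le_mul_of_nonneg_right hz h1.le)
        (by positivity : 0 ≤ 1 / 3 + D / 4 ^ k / 4)
      rw [h4, h6]
      nlinarith
  obtain ⟨k, hk⟩ := pow_unbounded_of_one_lt (3 * D) (by norm_num : (1 : ℝ) < 4)
  refine ⟨m + (k + 1), by omega, fun z hz => ?_⟩
  by_contra hcon
  obtain ⟨h1, h2⟩ := key z (not_lt.1 hcon) (k + 1)
  rw [map_sub, sub_eq_zero] at hz
  rw [← hz] at h2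
  have h3 : D / 4 ^ (k + 1) ≤ 1 / 3 := by
    rw [div_le_iff₀ (by positivity), pow_succ]
    have : (0 : ℝ) ≤ 4 ^ k := by positivity
    linarith
  nlinarith

end chain

theorem positive_chain (t : ℕ) : ∃ (n : ℕ) (a : ℕ → ℝ) (w : ℕ → ℕ → ℝ) (T : ℕ → ℝ[X]),
    1 ≤ n ∧ a 0 = -t ∧ (∀ i, a i ≤ 0) ∧ (∀ i l, 0 ≤ w i l) ∧ (∀ i l, i < l → w i l = 0) ∧
    (∀ i, i < n → ∑ l ∈ range n, w i l * 128 ^ l ≤ 34 * 128 ^ i) ∧ T 0 = 1 ∧
    (∀ i, i < n → X * T i = T (i + 1) + C (a i) * T i + ∑ l ∈ range n, C (w i l) * T l) ∧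
    ∀ z : ℂ, aeval z (T n) = 0 → ‖z‖ < 128 := by
  obtain ⟨m, a, R, S, h⟩ := chain_exists t
  obtain ⟨n, hn, hz⟩ := h.final
  have h1 : ∀ i, ∃ w : ℕ → ℝ, (∀ l, 0 ≤ w l) ∧ (∀ l, i < l → w l = 0) ∧
      (i < n → ∑ l ∈ range n, w l * 128 ^ l ≤ 34 * 128 ^ i) ∧
      (i < n → X * (S i - Y S i) = (S (i + 1) - Y S (i + 1)) + C (a i) * (S i - Y S i) +
        ∑ l ∈ range n, C (w l) * (S l - Y S l)) := by
    intro i
    by_cases hi : i < n
    · obtain ⟨w, w1, w2, w3, w4⟩ := h.row n i hi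
      exact ⟨w, w1, w2, fun _ => w4, fun _ => by linear_combination w3⟩
    · exact ⟨fun _ => 0, fun _ => le_rfl, fun _ _ => rfl, fun h => (hi h).elim,
        fun h => (hi h).elim⟩
  choose w w1 w2 w3 w4 using h1
  exact ⟨n, a, w, fun l => S l - Y S l, hn, h.a0, h.a_nonpos, w1, w2, w3,
    by simp [h.s0, Y], w4, hz⟩

end Pool.Agent.Lib.MP_7b644b_an
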