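import Pool.Agent.Lib.MP_7b644b_an.Sign

set_option autoImplicit false

namespace Pool.Agent.Lib.MP_7b644b_an

open Polynomial Finset

/-- The Hessenberg witness. -/
theorem witness (c ε : ℝ) (hε : 0 < ε) :
    ∃ (n : ℕ) (A : Matrix (Fin n) (Fin n) ℝ) (e : Fin n → ℝ),
      1 ≤ n ∧ (∀ i j, 0 ≤ A i j) ∧ (∀ i, ∑ j, A i j = 1) ∧
      (∀ j, 0 < e j) ∧ (∃ i, c ≤ e i) ∧
      spectrum ℂ ((A - Matrix.diagonal e).map (fun x : ℝ => (x : ℂ))) ⊆ Metric.ball 0 ε := by
  obtain ⟨δ, hδ, hδ1, hδ2⟩ : ∃ δ : ℝ, 0 < δ ∧ δ ≤ 1 / 256 ∧ δ ≤ ε / 256 :=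
    ⟨min (1 / 256) (ε / 256), lt_min (by norm_num) (by positivity), min_le_left _ _,
      min_le_right _ _⟩
  obtain ⟨t, ht⟩ := exists_nat_ge (c / δ)
  rw [div_le_iff₀ hδ] at ht
  obtain ⟨n, a, w, T, hn, ha0, ha, hw0, hwz, hws, hT0, hT, hroot⟩ := positive_chain t
  set M : ℕ → ℕ → ℝ := fun i k =>
    δ * ((if k = i + 1 then 128 else 0) + w i k * 128 ^ k / 128 ^ i) with hM
  have hM0 : ∀ i k, 0 ≤ M i k := fun i k => by
    have := hw0 i k
    simp only [hM]
    split_ifs <;> positivity
  have hMs : ∀ i, i < n → ∑ k ∈ range n, M i k < 1 := fun i hi => by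
    simp only [hM]
    rw [← Finset.mul_sum, Finset.sum_add_distrib, ← Finset.sum_div, Finset.sum_ite_eq']
    have h1 : (∑ k ∈ range n, w i k * 128 ^ k) / 128 ^ i ≤ 34 := by
      rw [div_le_iff₀ (by positivity)]; exact hws i hi
    have h2 : (if i + 1 ∈ range n then (128 : ℝ) else 0) ≤ 128 := by split_ifs <;> norm_num
    nlinarith
  refine ⟨n, Matrix.of fun i j => M i j + if i = j then 1 - ∑ k ∈ range n, M i k else 0,
    fun i => 1 - ∑ k ∈ range n, M i k - δ * a i, hn, ?_, ?_, ?_, ⟨⟨0, hn⟩, ?_⟩, ?_⟩
  · intro i j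
    have h1 := hM0 i j
    have h2 := hMs i i.2
    simp only [Matrix.of_apply]
    split_ifs <;> linarith
  · intro i
    simp only [Matrix.of_apply]
    rw [Finset.sum_add_distrib, Finset.sum_ite_eq, if_pos (Finset.mem_univ i),
      Fin.sum_univ_eq_sum_range (fun k => M i k) n]
    ring
  · intro j
    have h1 := hMs j j.2
    have h2 := mul_nonneg hδ.le (neg_nonneg.2 (ha j))
    simp only []
    linarith
  · have h1 := hMs 0 hn
    simp only [ha0]
    linarith
  · intro μ hμ
    rw [spectrum.mem_iff, Matrix.isUnit_iff_isUnit_det, isUnit_iff_ne_zero, not_not,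
      ← Matrix.exists_mulVec_eq_zero_iff] at hμ
    obtain ⟨v, hv, h⟩ := hμ
    set x : ℕ → ℂ := fun i => if hi : i < n then v ⟨i, hi⟩ else 0 with hx
    have hxv : ∀ i : Fin n, x i = v i := fun i => by simp [hx]
    have hxn : x n = 0 := by simp [hx]
    have hδc : (δ : ℂ) ≠ 0 := by exact_mod_cast hδ.ne'
    have heq : ∀ i, i < n → μ * x i = ∑ k ∈ range n, (M i k : ℂ) * x k + δ * a i * x i := by
      intro i hi
      have h1 := congrFun h ⟨i, hi⟩
      simp only [Matrix.mulVec, dotProduct, Matrix.sub_apply, Matrix.algebraMap_matrix_apply,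
        Matrix.map_apply, Matrix.of_apply, Matrix.diagonal_apply, Pi.zero_apply] at h1
      rw [← Fin.sum_univ_eq_sum_range (fun k => (M i k : ℂ) * x k) n]
      have h2 : ∀ j : Fin n, (M i j : ℂ) * x j =
          (if (⟨i, hi⟩ : Fin n) = j then (μ - δ * a i) * v j else 0) -
            ((if (⟨i, hi⟩ : Fin n) = j then (algebraMap ℂ ℂ) μ else 0) -
              (((M i j + if (⟨i, hi⟩ : Fin n) = j then 1 - ∑ k ∈ range n, M i k else 0) -
                if (⟨i, hi⟩ : Fin n) = j then 1 - ∑ k ∈ range n, M i k - δ * a i else 0 : ℝ) : ℂ))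
              * v j := by
        intro j
        rw [hxv]
        split_ifs with hij
        · simp only [Algebra.algebraMap_self, RingHom.id_apply]
          push_cast
          ring
        · push_cast
          ring
      simp only [h2, Finset.sum_sub_distrib, h1, Finset.sum_ite_eq, Finset.mem_univ, if_true,
        sub_zero]
      rw [← hxv ⟨i, hi⟩]
      ring
    have hind : ∀ i, i ≤ n → 128 ^ i * x i = aeval (μ / δ) (T i) * x 0 := by
      intro i
      induction i using Nat.strong_induction_on with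
      | _ i ih =>
        intro hi
        cases i with
        | zero => simp [hT0]
        | succ i =>
          have h1 := heq i (by omega)
          have h2 := congrArg (aeval (μ / δ)) (hT i (by omega))
          simp only [map_add, map_mul, map_sum, aeval_X, aeval_C, Complex.coe_algebraMap] at h2
          have h3 : ∑ k ∈ range n, (M i k : ℂ) * x k = δ * (128 * x (i + 1) +
              (∑ k ∈ range n, (w i k : ℂ) * aeval (μ / δ) (T k)) * x 0 / 128 ^ i) := by
            have h4 : 128 * x (i + 1) = ∑ k ∈ range n, if k = i + 1 then 128 * x k else 0 := by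
              rw [Finset.sum_ite_eq']
              split_ifs with h5
              · rfl
              · rw [show i + 1 = n by simp at h5; omega, hxn, mul_zero]
            rw [h4, Finset.sum_mul, Finset.sum_div, ← Finset.sum_add_distrib, Finset.mul_sum]
            refine Finset.sum_congr rfl fun k hk => ?_
            simp only [hM]
            by_cases hki : i < k
            · rw [hwz i k hki]
              split_ifs <;> push_cast <;> ring
            · rw [if_neg (by omega), if_neg (by omega), mul_assoc (w i k : ℂ),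
                ← ih k (by omega) (by omega)]
              push_cast
              ring
          have h5 := ih i (by omega) (by omega)
          have h6 : μ = δ * (μ / δ) := by field_simp
          have h7 : (128 : ℂ) ^ i ≠ 0 := pow_ne_zero _ (by norm_num)
          rw [h3] at h1
          set z := μ / δ
          set W := ∑ k ∈ range n, (w i k : ℂ) * aeval z (T k)
          have h8 : z * x i = 128 * x (i + 1) + W * x 0 / 128 ^ i + a i * x i := by
            apply mul_left_cancel₀ hδc
            rw [← mul_assoc, ← h6, h1]; ring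
          have h9 : 128 ^ i * (z * x i) = 128 ^ (i + 1) * x (i + 1) + W * x 0 +
              a i * (128 ^ i * x i) := by
            rw [h8]; field_simp; ring
          linear_combination -h9 + x 0 * h2 + (z - a i) * h5
    have hx0 : x 0 ≠ 0 := by
      intro h0
      apply hv
      funext i
      have := hind i i.2.le
      rw [h0, mul_zero, hxv] at this
      exact (mul_eq_zero.1 this).resolve_left (pow_ne_zero _ (by norm_num))
    have h1 := hind n le_rfl
    rw [hxn, mul_zero] at h1
    have h2 := hroot _ ((mul_eq_zero.1 h1.symm).resolve_right hx0)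
    rw [norm_div, Complex.norm_real, Real.norm_eq_abs, abs_of_pos hδ, div_lt_iff₀ hδ] at h2
    rw [mem_ball_zero_iff]
    linarith

open scoped Matrix.Norms.Operator in
/-- A small perturbation makes all entries of the row-stochastic matrix positive. -/
theorem perturb {n : ℕ} (hn : 1 ≤ n) (A : Matrix (Fin n) (Fin n) ℝ) (e : Fin n → ℝ) (ε : ℝ)
    (h0 : ∀ i j, 0 ≤ A i j) (h1 : ∀ i, ∑ j, A i j = 1)
    (h : spectrum ℂ ((A - Matrix.diagonal e).map (fun x : ℝ => (x : ℂ))) ⊆ Metric.ball 0 ε) :
    ∃ B : Matrix (Fin n) (Fin n) ℝ, (∀ i j, 0 < B i j) ∧ (∀ i, ∑ j, B i j = 1) ∧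
      spectrum ℂ ((B - Matrix.diagonal e).map (fun x : ℝ => (x : ℂ))) ⊆ Metric.ball 0 ε := by
  have hn' : (0 : ℝ) < n := by exact_mod_cast hn
  set F : ℝ → Matrix (Fin n) (Fin n) ℝ := fun s => Matrix.of fun i j => (1 - s) * A i j + s / n
    with hF
  have hc : Continuous fun s : ℝ => (F s - Matrix.diagonal e).map (fun x : ℝ => (x : ℂ)) := by
    refine continuous_matrix fun i j => ?_
    simp only [hF, Matrix.map_apply, Matrix.sub_apply, Matrix.of_apply]
    fun_prop
  have hF0 : F 0 = A := by
    ext i j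
    simp [hF]
  have h2 := ((upperHemicontinuous_spectrum ℂ (Matrix (Fin n) (Fin n) ℂ)).comp hc).forall_isOpen
    0 _ Metric.isOpen_ball (by simpa only [Function.comp, hF0] using h)
  have h3 : ∀ᶠ s : ℝ in nhdsWithin 0 (Set.Ioi 0), s ∈ Set.Ioo (0 : ℝ) 1 :=
    Ioo_mem_nhdsGT zero_lt_one
  obtain ⟨s, hs, hs0, hs1⟩ := ((h2.filter_mono nhdsWithin_le_nhds).and h3).exists
  refine ⟨F s, fun i j => ?_, fun i => ?_, hs⟩
  · have h4 := mul_nonneg (sub_nonneg.2 hs1.le) (h0 i j)
    have h5 : 0 < s / n := by positivity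
    simp only [hF, Matrix.of_apply]
    linarith
  · simp only [hF, Matrix.of_apply]
    rw [Finset.sum_add_distrib, ← Finset.mul_sum, h1, Finset.sum_const, Finset.card_univ,
      Fintype.card_fin, nsmul_eq_mul]
    field_simp
    ring

end Pool.Agent.Lib.MP_7b644b_an
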